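import Mathlib

/-!
# MP_6ded3d_an : minimizers of the `L^p` inner distortion need not be smooth

For every `p > 1` we exhibit a bounded planar domain `Ω` (a rectangle crossing the unit circle) and
a homeomorphism `g` of finite distortion which minimizes the `L^p` norm of the inner distortion in
its own class `F_g`, but which is not of class `C²`.  With `t = |x|²`, `b = 1/(p-1)` and
`κ(t) = max 1 (t^(-b))`, the map is `g(x) = (σ(|x|²), arctan(x₂/x₁))` with `σ'(t) = κ(t)/(2t)`.

The proof of minimality rests on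
* the pointwise inequality `K_I^p ≥ κ^p + p ((2 (x·∇f₁)/t - J_f) - κ/t)`,
* the fact that `x/|x|²` is divergence free, so that the flux term depends on boundary values only
  (absolute continuity on lines of Sobolev functions, proved below),
* the area inequality `∫ J_f ≤ vol f(Ω)` for injective weakly differentiable maps (an Egorov type
  argument, proved below), with equality for `g`.
-/

open MeasureTheory Set Filter Topology
open scoped ENNReal NNReal ContDiff

namespace Pool.Agent.Results.MP_6ded3d_an.PlanarNonsmoothMinimizer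

noncomputable section

/-! ### Definitions used in the statement -/

/-- `ℝⁿ` with its Euclidean norm. -/
abbrev E (n : ℕ) := EuclideanSpace ℝ (Fin n)

/-- Real `n × n` matrices. -/
abbrev Mat (n : ℕ) := Matrix (Fin n) (Fin n) ℝ

/-- The `j`-th standard unit vector of `ℝⁿ`. -/
abbrev ei {n : ℕ} (j : Fin n) : E n := EuclideanSpace.single j 1

open scoped Matrix.Norms.L2Operator in
/-- The operator norm `|A|` of a matrix with respect to the Euclidean norm. -/
def opNorm {n : ℕ} (A : Mat n) : ℝ := ‖A‖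

/-- The classical derivative `∂_j φ(x)`. -/
def dj {n : ℕ} (φ : E n → ℝ) (j : Fin n) (x : E n) : ℝ := fderiv ℝ φ x (ei j)

/-- `φ ∈ C_c^∞(Ω)`. -/
def IsTest {n : ℕ} (Ω : Set (E n)) (φ : E n → ℝ) : Prop :=
  ContDiff ℝ ∞ φ ∧ HasCompactSupport φ ∧ tsupport φ ⊆ Ω

/-- `f ∈ W^{1,1}_loc(Ω, ℝⁿ)` with weak differential `Df` (a field of matrices): all entries are
locally integrable on `Ω` and `(Df)_{ij}` is the weak derivative `∂_j f_i`, that is
`∫_Ω ∂_jφ f_i = - ∫_Ω φ (Df)_{ij}` for all `φ ∈ C_c^∞(Ω)`. -/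
structure IsWeakDifferential {n : ℕ} (Ω : Set (E n)) (f : E n → E n) (Df : E n → Mat n) :
    Prop where
  locInt : ∀ i : Fin n, LocallyIntegrableOn (fun x => f x i) Ω volume
  locInt_differential : ∀ i j : Fin n, LocallyIntegrableOn (fun x => Df x i j) Ω volume
  weak : ∀ φ : E n → ℝ, IsTest Ω φ → ∀ i j : Fin n,
    ∫ x in Ω, dj φ j x * f x i = - ∫ x in Ω, φ x * Df x i j

/-- The value of the inner distortion at a point with differential `A`:
`|adj A|^n (det A)^{1-n}` if `det A > 0` and `1` otherwise. -/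
def innerDistortion {n : ℕ} (A : Mat n) : ℝ :=
  if 0 < A.det then opNorm A.adjugate ^ n / A.det ^ (n - 1) else 1

/-- `f` has finite distortion on `Ω` (with weak differential `Df`): `f ∈ W^{1,1}_loc`,
`J_f ∈ L^1_loc`, `J_f ≥ 0` a.e., and `|Df|^n ≤ K J_f` a.e. for a measurable `K ≥ 1`. -/
structure FiniteDistortion {n : ℕ} (Ω : Set (E n)) (f : E n → E n) (Df : E n → Mat n) :
    Prop where
  weak : IsWeakDifferential Ω f Df
  jacobian_locInt : LocallyIntegrableOn (fun x => (Df x).det) Ω volume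
  jacobian_nonneg : ∀ᵐ x ∂(volume.restrict Ω), 0 ≤ (Df x).det
  bound : ∃ K : E n → ℝ, Measurable K ∧ (∀ x, 1 ≤ K x) ∧
    ∀ᵐ x ∂(volume.restrict Ω), opNorm (Df x) ^ n ≤ K x * (Df x).det

/-- The energy `∫_Ω K_I^p dx ∈ [0,∞]`. -/
def energy {n : ℕ} (p : ℝ) (Ω : Set (E n)) (Df : E n → Mat n) : ℝ≥0∞ :=
  ∫⁻ x in Ω, ENNReal.ofReal (innerDistortion (Df x) ^ p)

/-- `f` restricts to a homeomorphism of `A` onto `B`. -/
def IsHomeoOnto {n : ℕ} (f : E n → E n) (A B : Set (E n)) : Prop :=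
  ContinuousOn f A ∧ BijOn f A B ∧ ContinuousOn (Function.invFunOn f A) B

/-- `g` (with weak differential `Dg`) is an allowed boundary map: a homeomorphism of the closure of
`Ω` onto the closure of `g(Ω)`, of finite distortion on `Ω`, with inner distortion in `L^p(Ω)`. -/
structure IsBoundaryDatum {n : ℕ} (p : ℝ) (Ω : Set (E n)) (g : E n → E n) (Dg : E n → Mat n) :
    Prop where
  homeo : IsHomeoOnto g (closure Ω) (closure (g '' Ω))
  finiteDistortion : FiniteDistortion Ω g Dg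
  distortion_Lp : MemLp (fun x => innerDistortion (Dg x)) (ENNReal.ofReal p) (volume.restrict Ω)

/-- `f` (with weak differential `Df`) belongs to the class `F_g`. -/
structure Admissible {n : ℕ} (Ω : Set (E n)) (g : E n → E n) (f : E n → E n)
    (Df : E n → Mat n) : Prop where
  homeo : IsHomeoOnto f (closure Ω) (closure (g '' Ω))
  finiteDistortion : FiniteDistortion Ω f Df
  boundary : EqOn f g (frontier Ω)

/-- `f` (with weak differential `Df`) minimizes `∫_Ω K_I^p` in `F_g`. -/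
def IsMinimizer {n : ℕ} (p : ℝ) (Ω : Set (E n)) (g : E n → E n) (f : E n → E n)
    (Df : E n → Mat n) : Prop :=
  Admissible Ω g f Df ∧ ∀ (h : E n → E n) (Dh : E n → Mat n),
    Admissible Ω g h Dh → energy p Ω Df ≤ energy p Ω Dh

/-- `f` is a `C^∞` diffeomorphism of `Ω` onto `Ω'`. -/
def IsSmoothDiffeo {n : ℕ} (f : E n → E n) (Ω Ω' : Set (E n)) : Prop :=
  BijOn f Ω Ω' ∧ ContDiffOn ℝ ∞ f Ω ∧ ContDiffOn ℝ ∞ (Function.invFunOn f Ω) Ω'

/-- `Ω` is a bounded domain. -/
def IsBoundedDomain {n : ℕ} (Ω : Set (E n)) : Prop :=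
  IsOpen Ω ∧ IsConnected Ω ∧ Bornology.IsBounded Ω

/-- The assertion whose truth Q1 asks for: every minimizer is a `C^∞` diffeomorphism. -/
def RegularityStatement : Prop :=
  ∀ n : ℕ, 2 ≤ n → ∀ Ω : Set (E n), IsBoundedDomain Ω → ∀ p : ℝ, 1 < p →
    ∀ (g : E n → E n) (Dg : E n → Mat n), IsBoundaryDatum p Ω g Dg →
      ∀ (f : E n → E n) (Df : E n → Mat n), IsMinimizer p Ω g f Df →
        IsSmoothDiffeo f Ω (g '' Ω)

/-! ### Proof -/

/-! #### Part A -/

/-- integration by parts for a primitive of an integrable function -/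
lemma ibp_primitive {a b : ℝ} {G : ℝ → ℝ} (hG : IntervalIntegrable G volume a b)
    {w : ℝ → ℝ} (hw : ContDiff ℝ 1 w) :
    ∫ x in a..b, (∫ s in a..x, G s) * deriv w x =
      (∫ s in a..b, G s) * w b - ∫ x in a..b, G x * w x := by
  have h1 := hG.absolutelyContinuousOnInterval_intervalIntegral (c := a) (by simp)
  have h2 : AbsolutelyContinuousOnInterval w a b :=
    hw.contDiffOn.absolutelyContinuousOnInterval
  have h3 := h1.integral_mul_deriv_eq_deriv_mul h2
  rw [h3]
  simp only [intervalIntegral.integral_same, zero_mul, sub_zero]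
  congr 1
  apply intervalIntegral.integral_congr_ae
  filter_upwards [hG.ae_hasDerivAt_integral] with x hx hx2
  rw [(hx (uIoc_subset_uIcc hx2) a (by simp)).deriv]

/-- compact subsets of an open interval -/
lemma exists_Icc_of_compact {a b : ℝ} {K : Set ℝ} (hK : IsCompact K) (hKs : K ⊆ Ioo a b)
    {x0 : ℝ} (hx0 : x0 ∈ Ioo a b) :
    ∃ α β, a < α ∧ α < x0 ∧ x0 < β ∧ β < b ∧ K ⊆ Ioo α β := by
  have hK' : IsCompact (K ∪ {x0}) := hK.union isCompact_singleton
  have hne : (K ∪ {x0}).Nonempty := ⟨x0, Or.inr rfl⟩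
  have hsub : K ∪ {x0} ⊆ Ioo a b := union_subset hKs (by simpa using hx0)
  obtain ⟨m, hm, hmin⟩ := hK'.exists_isLeast hne
  obtain ⟨M, hM, hmax⟩ := hK'.exists_isGreatest hne
  have h1 := hsub hm
  have h2 := hsub hM
  refine ⟨(a + m) / 2, (b + M) / 2, by linarith [h1.1], ?_, ?_, by linarith [h2.2], ?_⟩
  · have := hmin (Or.inr rfl : x0 ∈ K ∪ {x0}); linarith [h1.1]
  · have := hmax (Or.inr rfl : x0 ∈ K ∪ {x0}); linarith [h2.2]
  · intro x hx
    have e1 := hmin (Or.inl hx)
    have e2 := hmax (Or.inl hx)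
    exact ⟨by linarith [h1.1], by linarith [h2.2]⟩

lemma intervalIntegrable_of_loc {a b : ℝ} {W : ℝ → ℝ} (hW : LocallyIntegrableOn W (Ioo a b))
    {y z : ℝ} (hy : y ∈ Ioo a b) (hz : z ∈ Ioo a b) : IntervalIntegrable W volume y z := by
  rw [intervalIntegrable_iff]
  exact (hW.integrableOn_compact_subset (ordConnected_Ioo.uIcc_subset hy hz)
    isCompact_uIcc).mono_set uIoc_subset_uIcc

/-- if `φ` is supported in `(α, β)` then integrals over `(a,b)` reduce to `(α, β)` -/
lemma setIntegral_eq_interval {a b α β : ℝ} (h1 : a < α) (h2 : α < β) (h3 : β < b)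
    {f : ℝ → ℝ} (hf : ∀ x, x ∉ Ioo α β → f x = 0) :
    ∫ x in Ioo a b, f x = ∫ x in α..β, f x := by
  rw [intervalIntegral.integral_of_le h2.le, integral_Ioc_eq_integral_Ioo]
  apply setIntegral_eq_of_subset_of_forall_sdiff_eq_zero measurableSet_Ioo
    (Ioo_subset_Ioo h1.le h3.le)
  intro x hx
  exact hf x hx.2

lemma weak_1d {a b : ℝ} {U W : ℝ → ℝ} (hU : ContinuousOn U (Ioo a b))
    (hW : LocallyIntegrableOn W (Ioo a b))
    (H : ∀ φ : ℝ → ℝ, ContDiff ℝ ∞ φ → HasCompactSupport φ → tsupport φ ⊆ Ioo a b →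
      ∫ x in Ioo a b, deriv φ x * U x = -∫ x in Ioo a b, φ x * W x) :
    ∀ x1 ∈ Ioo a b, ∀ x2 ∈ Ioo a b, U x2 - U x1 = ∫ s in x1..x2, W s := by
  intro x1 hx1 x2 hx2
  set T : ℝ → ℝ := fun x => U x - ∫ s in x1..x, W s with hT
  have hTc : ContinuousOn T (Ioo a b) := by
    apply hU.sub
    intro x hx
    obtain ⟨α, β, h1, h2, h3, h4, h5⟩ := exists_Icc_of_compact (K := {x}) isCompact_singleton
      (by simpa using hx) hx1
    have hx' : x ∈ Ioo α β := h5 rfl
    have hαβ : α ≤ β := (h2.trans h3).le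
    have hint : IntervalIntegrable W volume α β :=
      intervalIntegrable_of_loc hW ⟨h1, by linarith⟩ ⟨by linarith, h4⟩
    have hc := intervalIntegral.continuousOn_primitive_interval' hint (a := x1)
      (by rw [uIcc_of_le hαβ]; exact ⟨h2.le, h3.le⟩)
    rw [uIcc_of_le hαβ] at hc
    exact (hc.continuousAt (Icc_mem_nhds hx'.1 hx'.2)).continuousWithinAt
  -- integral of `φ' T` vanishes
  have hT0 : ∀ φ : ℝ → ℝ, ContDiff ℝ ∞ φ → HasCompactSupport φ → tsupport φ ⊆ Ioo a b →
      ∫ x in Ioo a b, deriv φ x * T x = 0 := by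
    intro φ hφ hφc hφs
    obtain ⟨α, β, h1, h2, h3, h4, h5⟩ := exists_Icc_of_compact hφc hφs hx1
    have hαβ : α < β := h2.trans h3
    have hφ0 : ∀ x, x ∉ Ioo α β → φ x = 0 := fun x hx =>
      image_eq_zero_of_notMem_tsupport (fun h => hx (h5 h))
    have hφd0 : ∀ x, x ∉ Ioo α β → deriv φ x = 0 := fun x hx => by
      have : x ∉ tsupport (deriv φ) := fun h => hx (h5 (tsupport_deriv_subset (𝕜 := ℝ) h))
      exact image_eq_zero_of_notMem_tsupport this
    have hint : IntervalIntegrable W volume α β :=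
      intervalIntegrable_of_loc hW ⟨h1, by linarith⟩ ⟨by linarith, h4⟩
    have hint1 : IntervalIntegrable W volume x1 α :=
      intervalIntegrable_of_loc hW hx1 ⟨h1, by linarith⟩
    have hUc : ContinuousOn U (uIcc α β) := by
      rw [uIcc_of_le hαβ.le]
      exact hU.mono (Icc_subset_Ioo h1 h4)
    have hφdc : Continuous (deriv φ) := hφ.continuous_deriv (by simp)
    have HH := H φ hφ hφc hφs
    rw [setIntegral_eq_interval h1 hαβ h4 (fun x hx => by rw [hφd0 x hx, zero_mul]),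
      setIntegral_eq_interval h1 hαβ h4 (fun x hx => by rw [hφ0 x hx, zero_mul])] at HH
    rw [setIntegral_eq_interval h1 hαβ h4 (fun x hx => by rw [hφd0 x hx, zero_mul])]
    have hib := ibp_primitive hint (hφ.of_le (by simp))
    have hφβ : φ β = 0 := hφ0 β (by simp)
    have hφα : φ α = 0 := hφ0 α (by simp)
    have hcp : ContinuousOn (fun x => ∫ s in α..x, W s) (uIcc α β) :=
      intervalIntegral.continuousOn_primitive_interval' hint (by simp)
    have e1 : ∀ x ∈ uIcc α β, deriv φ x * T x = deriv φ x * U x -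
        ((∫ s in α..x, W s) * deriv φ x + (∫ s in x1..α, W s) * deriv φ x) := by
      intro x hx
      have : ∫ s in x1..x, W s = (∫ s in x1..α, W s) + ∫ s in α..x, W s := by
        rw [intervalIntegral.integral_add_adjacent_intervals hint1
          (hint.mono_set (uIcc_subset_uIcc left_mem_uIcc hx))]
      simp only [hT, this]; ring
    rw [intervalIntegral.integral_congr e1, intervalIntegral.integral_sub,
      intervalIntegral.integral_add, hib, HH, hφβ, mul_zero, zero_sub,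
      intervalIntegral.integral_const_mul,
      intervalIntegral.integral_deriv_eq_sub (fun x _ => (hφ.differentiable (by simp)) x)
        (hφdc.intervalIntegrable _ _), hφβ, hφα]
    · simp only [sub_self, mul_zero, add_zero]
      rw [sub_neg_eq_add, neg_add_eq_zero]
      exact intervalIntegral.integral_congr (fun x _ => mul_comm _ _)
    · exact (hcp.mul hφdc.continuousOn).intervalIntegrable
    · exact (hφdc.intervalIntegrable _ _).const_mul _
    · exact (hφdc.continuousOn.mul hUc).intervalIntegrable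
    · exact ((hcp.mul hφdc.continuousOn).intervalIntegrable).add
        ((hφdc.intervalIntegrable _ _).const_mul _)
  -- a bump with integral one
  obtain ⟨η0, h0s, h0c, h0d, h01⟩ : ∃ η : ℝ → ℝ, tsupport η ⊆ Ioo a b ∧ HasCompactSupport η ∧
      ContDiff ℝ ∞ η ∧ ∫ x in Ioo a b, η x = 1 := by
    obtain ⟨α, β, h1, h2, h3, h4, h5⟩ := exists_Icc_of_compact (K := {x1}) isCompact_singleton
      (by simpa using hx1) hx1
    set R := min (x1 - α) (β - x1) with hR
    have hRpos : 0 < R := lt_min (by linarith) (by linarith)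
    let f : ContDiffBump x1 := ⟨R / 2, R, by linarith, by linarith⟩
    have hts : tsupport (f.normed volume) ⊆ Ioo a b := by
      rw [f.tsupport_normed_eq, Real.closedBall_eq_Icc]
      have e1 : f.rOut = R := rfl
      rw [e1]
      intro x hx
      have e2 : R ≤ x1 - α := min_le_left _ _
      have e3 : R ≤ β - x1 := min_le_right _ _
      exact ⟨by linarith [hx.1], by linarith [hx.2]⟩
    refine ⟨f.normed volume, hts, f.hasCompactSupport_normed, f.contDiff_normed, ?_⟩
    rw [setIntegral_eq_integral_of_forall_compl_eq_zero, f.integral_normed]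
    intro x hx
    exact image_eq_zero_of_notMem_tsupport (fun h => hx (hts h))
  set c := ∫ x in Ioo a b, η0 x * T x with hc
  have key : ∀ η : ℝ → ℝ, ContDiff ℝ ∞ η → HasCompactSupport η → tsupport η ⊆ Ioo a b →
      ∫ x in Ioo a b, η x * (T x - c) = 0 := by
    intro η hη hηc hηs
    set κ := ∫ x in Ioo a b, η x with hκ
    obtain ⟨α, β, h1, h2, h3, h4, h5⟩ := exists_Icc_of_compact (hηc.isCompact.union h0c.isCompact)
      (union_subset hηs h0s) hx1
    have hαβ : α < β := h2.trans h3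
    have e0 : ∀ x, x ∉ Ioo α β → η x = 0 := fun x hx =>
      image_eq_zero_of_notMem_tsupport (fun h => hx (h5 (Or.inl h)))
    have e1 : ∀ x, x ∉ Ioo α β → η0 x = 0 := fun x hx =>
      image_eq_zero_of_notMem_tsupport (fun h => hx (h5 (Or.inr h)))
    set ζ : ℝ → ℝ := fun x => η x - κ * η0 x with hζ
    have hζd : ContDiff ℝ ∞ ζ := hη.sub (contDiff_const.mul h0d)
    have hζc : Continuous ζ := hζd.continuous
    set φ : ℝ → ℝ := fun x => ∫ s in α..x, ζ s with hφ
    have hφder : ∀ x, HasDerivAt φ (ζ x) x := fun x =>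
      intervalIntegral.integral_hasDerivAt_right (hζc.intervalIntegrable _ _)
        (hζc.stronglyMeasurableAtFilter _ _) hζc.continuousAt
    have hφd : deriv φ = ζ := funext fun x => (hφder x).deriv
    have hφs : ContDiff ℝ ∞ φ := by
      rw [contDiff_infty_iff_deriv]
      exact ⟨fun x => (hφder x).differentiableAt, by rw [hφd]; exact hζd⟩
    have hζ0 : ∀ x, x ∉ Ioo α β → ζ x = 0 := fun x hx => by simp [hζ, e0 x hx, e1 x hx]
    have hφα : ∀ x ≤ α, φ x = 0 := by
      intro x hx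
      simp only [hφ]
      rw [intervalIntegral.integral_zero_ae]
      filter_upwards with y hy
      apply hζ0
      rw [uIoc_of_ge hx] at hy
      intro h; exact absurd hy.2 (not_le.2 h.1)
    have hζint : ∫ s in α..β, ζ s = 0 := by
      rw [← setIntegral_eq_interval h1 hαβ h4 hζ0]
      simp only [hζ]
      rw [integral_sub, integral_const_mul, h01, mul_one, ← hκ, sub_self]
      · exact (hη.continuous.integrable_of_hasCompactSupport hηc).integrableOn
      · exact ((h0d.continuous.integrable_of_hasCompactSupport h0c).const_mul κ).integrableOn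
    have hφβ : ∀ x, β ≤ x → φ x = 0 := by
      intro x hx
      simp only [hφ]
      rw [← intervalIntegral.integral_add_adjacent_intervals (hζc.intervalIntegrable α β)
        (hζc.intervalIntegrable β x), hζint, zero_add]
      rw [intervalIntegral.integral_zero_ae]
      filter_upwards with y hy
      apply hζ0
      rw [uIoc_of_le hx] at hy
      intro h; exact absurd hy.1 (not_lt.2 h.2.le)
    have hφsupp : tsupport φ ⊆ Icc α β := by
      apply closure_minimal _ isClosed_Icc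
      intro x hx
      by_contra hcon
      apply hx
      rcases lt_or_ge x α with h | h
      · exact hφα x h.le
      · rcases lt_or_ge β x with h' | h'
        · exact hφβ x h'.le
        · exact absurd ⟨h, h'⟩ hcon
    have h6 := hT0 φ hφs (isCompact_Icc.of_isClosed_subset (isClosed_tsupport φ) hφsupp)
      (hφsupp.trans (Icc_subset_Ioo h1 h4))
    rw [hφd] at h6
    have hTη : ∀ g : ℝ → ℝ, Continuous g → (∀ x, x ∉ Ioo α β → g x = 0) →
        IntegrableOn (fun x => g x * T x) (Ioo a b) := by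
      intro g hg hg0
      have h7 : IntegrableOn (fun x => g x * T x) (Icc α β) :=
        (hg.continuousOn.mul (hTc.mono (Icc_subset_Ioo h1 h4))).integrableOn_Icc
      have h8 : Function.support (fun x => g x * T x) ⊆ Icc α β := by
        intro x hx
        by_contra hcon
        apply hx
        simp only
        rw [hg0 x (fun h => hcon (Ioo_subset_Icc_self h)), zero_mul]
      exact ((integrableOn_iff_integrable_of_support_subset h8).1 h7).integrableOn
    have h9 : ∫ x in Ioo a b, (η x * T x - κ * (η0 x * T x)) = 0 := by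
      rw [← h6]; congr 1; ext x; simp only [hζ]; ring
    rw [integral_sub (hTη η hη.continuous e0) ((hTη η0 h0d.continuous e1).const_mul κ),
      integral_const_mul, ← hc] at h9
    have h10 : ∫ x in Ioo a b, (η x * T x - c * η x) = 0 := by
      rw [integral_sub (hTη η hη.continuous e0)
        ((hη.continuous.integrable_of_hasCompactSupport hηc).const_mul c).integrableOn,
        integral_const_mul, ← hκ]
      linarith
    rw [← h10]; congr 1; ext x; ring
  have hTae : ∀ᵐ x, x ∈ Ioo a b → T x - c = 0 := by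
    apply isOpen_Ioo.ae_eq_zero_of_integral_contDiff_smul_eq_zero
    · exact (hTc.sub continuousOn_const).locallyIntegrableOn measurableSet_Ioo
    · intro g hg hgc hgs
      rw [← key g hg hgc hgs, setIntegral_eq_integral_of_forall_compl_eq_zero]
      · rfl
      · intro x hx
        rw [image_eq_zero_of_notMem_tsupport (fun h => hx (hgs h)), zero_mul]
  have hEq : EqOn T (fun _ => c) (Ioo a b) := by
    apply Measure.eqOn_open_of_ae_eq (μ := volume) _ isOpen_Ioo hTc continuousOn_const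
    rw [Filter.EventuallyEq, ae_restrict_iff' measurableSet_Ioo]
    filter_upwards [hTae] with x hx hx'
    exact sub_eq_zero.1 (hx hx')
  have f1 := hEq hx1
  have f2 := hEq hx2
  simp only [hT, intervalIntegral.integral_same, sub_zero] at f1 f2
  linarith

/-! #### Part B -/

/-- weak derivative in the first direction, tested against products -/
def WeakFst (a b c d : ℝ) (u v : ℝ × ℝ → ℝ) : Prop :=
  ∀ φ ψ : ℝ → ℝ, ContDiff ℝ ∞ φ → HasCompactSupport φ → tsupport φ ⊆ Ioo a b →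
    ContDiff ℝ ∞ ψ → HasCompactSupport ψ → tsupport ψ ⊆ Ioo c d →
      ∫ z in Ioo a b ×ˢ Ioo c d, (deriv φ z.1 * ψ z.2) * u z =
        - ∫ z in Ioo a b ×ˢ Ioo c d, (φ z.1 * ψ z.2) * v z

lemma restrict_rect (a b c d : ℝ) :
    (volume : Measure (ℝ × ℝ)).restrict (Ioo a b ×ˢ Ioo c d) =
      (volume.restrict (Ioo a b)).prod (volume.restrict (Ioo c d)) := by
  rw [Measure.prod_restrict, ← Measure.volume_eq_prod]

lemma acl_rect {a b c d : ℝ} {u v : ℝ × ℝ → ℝ} (hu : Continuous u)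
    (hv : IntegrableOn v (Ioo a b ×ˢ Ioo c d)) (H : WeakFst a b c d u v) :
    ∀ᵐ y ∂(volume.restrict (Ioo c d)), IntegrableOn (fun s => v (s, y)) (Ioo a b) ∧
      ∀ x1 ∈ Ioo a b, ∀ x2 ∈ Ioo a b,
        u (x2, y) - u (x1, y) = ∫ s in x1..x2, v (s, y) := by
  have hv' : Integrable v ((volume.restrict (Ioo a b)).prod (volume.restrict (Ioo c d))) := by
    rw [← restrict_rect]; exact hv
  -- fixed endpoints
  have step1 : ∀ x1 ∈ Ioo a b, ∀ x2 ∈ Ioo a b,
      ∀ᵐ y ∂(volume.restrict (Ioo c d)), u (x2, y) - u (x1, y) = ∫ s in x1..x2, v (s, y) := by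
    intro x1 hx1 x2 hx2
    have hsub : uIoc x1 x2 ⊆ Ioo a b :=
      uIoc_subset_uIcc.trans (ordConnected_Ioo.uIcc_subset hx1 hx2)
    have hv2 : Integrable v ((volume.restrict (uIoc x1 x2)).prod (volume.restrict (Ioo c d))) := by
      rw [Measure.prod_restrict, ← Measure.volume_eq_prod]
      exact hv.mono_set (prod_mono hsub subset_rfl)
    have hG : IntegrableOn (fun y => ∫ s in x1..x2, v (s, y)) (Ioo c d) := by
      have := hv2.integral_prod_right
      simp only [intervalIntegral.intervalIntegral_eq_integral_uIoc, smul_eq_mul]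
      exact this.const_mul _
    have h0 : ∀ᵐ y, y ∈ Ioo c d → u (x2, y) - u (x1, y) - ∫ s in x1..x2, v (s, y) = 0 := by
      apply isOpen_Ioo.ae_eq_zero_of_integral_contDiff_smul_eq_zero
      · apply LocallyIntegrableOn.sub _ hG.locallyIntegrableOn
        apply ContinuousOn.locallyIntegrableOn _ measurableSet_Ioo
        fun_prop
      intro ψ hψ hψc hψs
      have hψb : ∀ z : ℝ × ℝ, ‖ψ z.2‖ ≤ (hψ.continuous.bounded_above_of_compact_support hψc).choose :=
        fun z => (hψ.continuous.bounded_above_of_compact_support hψc).choose_spec _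
      have hψm : Continuous (fun z : ℝ × ℝ => ψ z.2) := hψ.continuous.comp continuous_snd
      have hvψ : Integrable (fun z : ℝ × ℝ => ψ z.2 * v z)
          ((volume.restrict (Ioo a b)).prod (volume.restrict (Ioo c d))) :=
        hv'.bdd_mul hψm.aestronglyMeasurable (Eventually.of_forall hψb)
      have hvψ2 : Integrable (fun z : ℝ × ℝ => ψ z.2 * v z)
          ((volume.restrict (uIoc x1 x2)).prod (volume.restrict (Ioo c d))) :=
        hv2.bdd_mul hψm.aestronglyMeasurable (Eventually.of_forall hψb)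
      set U : ℝ → ℝ := fun x => ∫ y in Ioo c d, ψ y * u (x, y) with hU
      set W : ℝ → ℝ := fun x => ∫ y in Ioo c d, ψ y * v (x, y) with hW
      have hUc : Continuous U := by
        have : U = fun x => ∫ y in Icc c d, ψ y * u (x, y) := by
          ext x; rw [hU, integral_Icc_eq_integral_Ioo]
        rw [this]
        apply continuous_parametric_integral_of_continuous _ isCompact_Icc
        have := hψ.continuous
        simp only [Function.uncurry_def]
        fun_prop
      have hWi : IntegrableOn W (Ioo a b) := hvψ.integral_prod_left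
      have hweak := weak_1d (a := a) (b := b) (U := U) (W := W) hUc.continuousOn
        hWi.locallyIntegrableOn ?_ x1 hx1 x2 hx2
      · have e1 : ∫ s in x1..x2, W s = ∫ y in Ioo c d, ψ y * ∫ s in x1..x2, v (s, y) := by
          rw [hW, intervalIntegral_integral_swap (f := fun x y => ψ y * v (x, y)) hvψ2]
          simp
        rw [e1] at hweak
        have e2 : ∀ x, IntegrableOn (fun y => ψ y * u (x, y)) (Ioo c d) := by
          intro x
          have h1 : Continuous (fun y => ψ y * u (x, y)) := by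
            have := hψ.continuous
            fun_prop
          exact h1.integrableOn_Icc.mono_set Ioo_subset_Icc_self
        have e3 : IntegrableOn (fun y => ψ y * ∫ s in x1..x2, v (s, y)) (Ioo c d) :=
          hG.bdd_mul hψ.continuous.aestronglyMeasurable
            (Eventually.of_forall fun y => hψb (0, y))
        rw [← setIntegral_eq_integral_of_forall_compl_eq_zero (s := Ioo c d)]
        · have e4 : ∀ y, ψ y • (u (x2, y) - u (x1, y) - ∫ s in x1..x2, v (s, y)) =
              ψ y * u (x2, y) - ψ y * u (x1, y) - ψ y * ∫ s in x1..x2, v (s, y) := by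
            intro y; simp only [smul_eq_mul]; ring
          simp only [e4]
          rw [integral_sub (f := fun y => ψ y * u (x2, y) - ψ y * u (x1, y))
            ((e2 x2).sub (e2 x1)) e3, integral_sub (e2 x2) (e2 x1)]
          rw [← hweak]; simp only [hU]; ring
        · intro y hy
          rw [image_eq_zero_of_notMem_tsupport (fun h => hy (hψs h)), zero_smul]
      · intro φ hφ hφc hφs
        have h1 := H φ ψ hφ hφc hφs hψ hψc hψs
        rw [Measure.volume_eq_prod, setIntegral_prod, setIntegral_prod] at h1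
        · simp only [mul_assoc, integral_const_mul] at h1
          exact h1
        · rw [← Measure.volume_eq_prod]
          have hφb := hφ.continuous.bounded_above_of_compact_support hφc
          obtain ⟨C, hC⟩ := hφb
          have := hvψ.bdd_mul (f := fun z : ℝ × ℝ => φ z.1) (c := C)
            (hφ.continuous.comp continuous_fst).aestronglyMeasurable
            (Eventually.of_forall fun z => hC _)
          rw [IntegrableOn, restrict_rect]
          refine this.congr (Eventually.of_forall fun z => ?_)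
          simp only; ring
        · rw [← Measure.volume_eq_prod]
          have h2 : Continuous (fun z : ℝ × ℝ => deriv φ z.1 * ψ z.2 * u z) := by
            have h3 := hψ.continuous
            have h4 : Continuous (deriv φ) := hφ.continuous_deriv (by simp)
            fun_prop
          exact (h2.continuousOn.integrableOn_compact
            (isCompact_Icc.prod isCompact_Icc)).mono_set
            (prod_mono Ioo_subset_Icc_self Ioo_subset_Icc_self)
    rw [ae_restrict_iff' measurableSet_Ioo]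
    filter_upwards [h0] with y hy hy'
    linarith [hy hy']
  -- all endpoints
  rcases (Ioo a b).eq_empty_or_nonempty with he | ⟨x0, hx0⟩
  · rw [he]; simp
  have step2 : ∀ᵐ y ∂(volume.restrict (Ioo c d)), ∀ q : ℚ, (q : ℝ) ∈ Ioo a b →
      u (q, y) - u (x0, y) = ∫ s in x0..q, v (s, y) := by
    rw [ae_all_iff]
    intro q
    by_cases hq : (q : ℝ) ∈ Ioo a b
    · filter_upwards [step1 x0 hx0 q hq] with y hy _ using hy
    · exact Eventually.of_forall fun y h => absurd h hq
  have step3 : ∀ᵐ y ∂(volume.restrict (Ioo c d)), IntegrableOn (fun s => v (s, y)) (Ioo a b) :=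
    hv'.prod_left_ae
  filter_upwards [step2, step3] with y hy hyi
  refine ⟨hyi, ?_⟩
  have hii : ∀ p ∈ Ioo a b, ∀ q ∈ Ioo a b, IntervalIntegrable (fun s => v (s, y)) volume p q := by
    intro p hp q hq
    exact intervalIntegrable_of_loc hyi.locallyIntegrableOn hp hq
  have key : ∀ x ∈ Ioo a b, u (x, y) - u (x0, y) = ∫ s in x0..x, v (s, y) := by
    have hc1 : ContinuousOn (fun x => u (x, y) - u (x0, y)) (Ioo a b) := by fun_prop
    have hc2 : ContinuousOn (fun x => ∫ s in x0..x, v (s, y)) (Ioo a b) := by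
      intro x hx
      obtain ⟨α, β, h1, h2, h3, h4, h5⟩ := exists_Icc_of_compact (K := {x}) isCompact_singleton
        (by simpa using hx) hx0
      have hx' : x ∈ Ioo α β := h5 rfl
      have hαβ : α ≤ β := (h2.trans h3).le
      have hint : IntervalIntegrable (fun s => v (s, y)) volume α β :=
        hii α ⟨h1, by linarith⟩ β ⟨by linarith, h4⟩
      have hc := intervalIntegral.continuousOn_primitive_interval' hint (a := x0)
        (by rw [uIcc_of_le hαβ]; exact ⟨h2.le, h3.le⟩)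
      rw [uIcc_of_le hαβ] at hc
      exact (hc.continuousAt (Icc_mem_nhds hx'.1 hx'.2)).continuousWithinAt
    intro x hx
    by_contra hne
    have hc3 : ContinuousOn (fun x => (u (x, y) - u (x0, y)) - ∫ s in x0..x, v (s, y))
      (Ioo a b) := hc1.sub hc2
    have hopen : IsOpen (Ioo a b ∩ (fun x => (u (x, y) - u (x0, y)) - ∫ s in x0..x, v (s, y)) ⁻¹' {0}ᶜ) :=
      hc3.isOpen_inter_preimage isOpen_Ioo isOpen_compl_singleton
    obtain ⟨q, hq⟩ := Rat.denseRange_cast.exists_mem_open hopen ⟨x, hx, sub_ne_zero.2 hne⟩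
    exact hq.2 (by simp [hy q hq.1])
  intro x1 hx1 x2 hx2
  have h1 := key x1 hx1
  have h2 := key x2 hx2
  rw [← intervalIntegral.integral_interval_sub_left (hii x0 hx0 x2 hx2) (hii x0 hx0 x1 hx1)]
  linarith

/-! #### Part C -/

lemma WeakFst.mono {a b c d a' b' c' d' : ℝ} {u v : ℝ × ℝ → ℝ} (H : WeakFst a b c d u v)
    (ha : a ≤ a') (hb : b' ≤ b) (hc : c ≤ c') (hd : d' ≤ d) : WeakFst a' b' c' d' u v := by
  intro φ ψ hφ hφc hφs hψ hψc hψs
  have h1 := H φ ψ hφ hφc (hφs.trans (Ioo_subset_Ioo ha hb)) hψ hψc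
    (hψs.trans (Ioo_subset_Ioo hc hd))
  have hsub : Ioo a' b' ×ˢ Ioo c' d' ⊆ Ioo a b ×ˢ Ioo c d :=
    prod_mono (Ioo_subset_Ioo ha hb) (Ioo_subset_Ioo hc hd)
  have hz : ∀ z ∈ (Ioo a b ×ˢ Ioo c d) \ (Ioo a' b' ×ˢ Ioo c' d'),
      deriv φ z.1 * ψ z.2 = 0 ∧ φ z.1 * ψ z.2 = 0 := by
    intro z hz
    by_cases h1 : z.1 ∈ Ioo a' b'
    · have h2 : z.2 ∉ Ioo c' d' := fun h => hz.2 ⟨h1, h⟩
      have h3 : ψ z.2 = 0 := image_eq_zero_of_notMem_tsupport (fun h => h2 (hψs h))
      simp [h3]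
    · have h3 : φ z.1 = 0 := image_eq_zero_of_notMem_tsupport (fun h => h1 (hφs h))
      have h4 : deriv φ z.1 = 0 := image_eq_zero_of_notMem_tsupport
        (fun h => h1 (hφs (tsupport_deriv_subset (𝕜 := ℝ) h)))
      simp [h3, h4]
  rw [setIntegral_eq_of_subset_of_forall_sdiff_eq_zero
      (measurableSet_Ioo.prod measurableSet_Ioo) hsub
      (fun z hz' => by rw [(hz z hz').1, zero_mul]),
    setIntegral_eq_of_subset_of_forall_sdiff_eq_zero
      (measurableSet_Ioo.prod measurableSet_Ioo) hsub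
      (fun z hz' => by rw [(hz z hz').2, zero_mul])] at h1
  exact h1

lemma measurableSet_hasDerivAt_fst {u v : ℝ × ℝ → ℝ} (hu : Continuous u) (hv : Measurable v) :
    MeasurableSet {z : ℝ × ℝ | HasDerivAt (fun x => u (x, z.2)) (v z) z.1} := by
  have hc : Continuous (Function.uncurry (fun y x : ℝ => u (x, y))) := by
    simp only [Function.uncurry_def]; fun_prop
  have h1 := measurableSet_of_differentiableAt_with_param ℝ hc
  have h2 := measurable_deriv_with_param hc
  have h3 : {z : ℝ × ℝ | HasDerivAt (fun x => u (x, z.2)) (v z) z.1} =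
      Prod.swap ⁻¹' {p : ℝ × ℝ | DifferentiableAt ℝ ((fun y x : ℝ => u (x, y)) p.1) p.2} ∩
      {z | deriv ((fun y x : ℝ => u (x, y)) (Prod.swap z).1) (Prod.swap z).2 = v z} := by
    ext z
    simp only [mem_inter_iff, mem_preimage, Set.mem_ofPred_eq, Prod.fst_swap, Prod.snd_swap]
    constructor
    · intro h
      exact ⟨h.differentiableAt, h.deriv⟩
    · rintro ⟨h, h'⟩
      rw [← h']; exact h.hasDerivAt
  rw [h3]
  exact (measurable_swap h1).inter (measurableSet_eq_fun (h2.comp measurable_swap) hv)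

lemma ae_hasDerivAt_fst_rect_aux {a b c d : ℝ} {u v : ℝ × ℝ → ℝ} (hu : Continuous u)
    (hvm : Measurable v)
    (hv : IntegrableOn v (Ioo a b ×ˢ Ioo c d)) (H : WeakFst a b c d u v) :
    ∀ᵐ z ∂(volume.restrict (Ioo a b ×ˢ Ioo c d)), HasDerivAt (fun x => u (x, z.2)) (v z) z.1 := by
  have hP := measurableSet_hasDerivAt_fst hu hvm
  rw [restrict_rect, Measure.ae_prod_iff_ae_ae hP,
    Measure.ae_ae_comm (p := fun x y => HasDerivAt (fun s => u (s, (x, y).2)) (v (x, y)) (x, y).1) hP]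
  filter_upwards [acl_rect hu hv H] with y hy
  obtain ⟨hyi, hyf⟩ := hy
  rcases (Ioo a b).eq_empty_or_nonempty with he | ⟨x0, hx0⟩
  · rw [he]; simp
  have hab : a ≤ b := (hx0.1.trans hx0.2).le
  have hint : IntervalIntegrable (fun s => v (s, y)) volume a b := by
    rw [intervalIntegrable_iff_integrableOn_Ioo_of_le hab]; exact hyi
  rw [ae_restrict_iff' measurableSet_Ioo]
  filter_upwards [hint.ae_hasDerivAt_integral] with x hx hx'
  have h1 := hx (by rw [uIcc_of_le hab]; exact Ioo_subset_Icc_self hx') x0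
    (by rw [uIcc_of_le hab]; exact Ioo_subset_Icc_self hx0)
  have h2 : HasDerivAt (fun x => u (x0, y) + ∫ s in x0..x, v (s, y)) (v (x, y)) x :=
    h1.const_add _
  apply h2.congr_of_eventuallyEq
  filter_upwards [isOpen_Ioo.mem_nhds hx'] with t ht
  have := hyf x0 hx0 t ht
  linarith

lemma ae_hasDerivAt_fst_rect {a b c d : ℝ} {u v : ℝ × ℝ → ℝ} (hu : Continuous u)
    (hv : IntegrableOn v (Ioo a b ×ˢ Ioo c d)) (H : WeakFst a b c d u v) :
    ∀ᵐ z ∂(volume.restrict (Ioo a b ×ˢ Ioo c d)), HasDerivAt (fun x => u (x, z.2)) (v z) z.1 := by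
  obtain ⟨v', hv'm, hv'⟩ := hv.1
  have hv'i : IntegrableOn v' (Ioo a b ×ˢ Ioo c d) := hv.congr hv'
  have H' : WeakFst a b c d u v' := by
    intro φ ψ hφ hφc hφs hψ hψc hψs
    rw [H φ ψ hφ hφc hφs hψ hψc hψs]
    congr 1
    apply integral_congr_ae
    filter_upwards [hv'] with z hz
    rw [hz]
  filter_upwards [hv', ae_hasDerivAt_fst_rect_aux hu hv'm.measurable hv'i H'] with z h1 h2
  rw [h1]; exact h2

/-- exhausting rectangles -/
def rk (a b : ℝ) (k : ℕ) : Set ℝ := Ioo (a + 1 / (k + 1)) (b - 1 / (k + 1))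

lemma iUnion_rk (a b c d : ℝ) :
    ⋃ k : ℕ, (rk a b k ×ˢ rk c d k) = Ioo a b ×ˢ Ioo c d := by
  ext z
  simp only [mem_iUnion, mem_prod, rk, mem_Ioo]
  constructor
  · rintro ⟨k, ⟨h1, h2⟩, h3, h4⟩
    have : (0:ℝ) < 1 / (k + 1) := by positivity
    exact ⟨⟨by linarith, by linarith⟩, by linarith, by linarith⟩
  · rintro ⟨⟨h1, h2⟩, h3, h4⟩
    have hε : 0 < min (min (z.1 - a) (b - z.1)) (min (z.2 - c) (d - z.2)) := by
      apply lt_min <;> apply lt_min <;> linarith
    obtain ⟨k, hk⟩ := exists_nat_one_div_lt hε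
    refine ⟨k, ?_⟩
    have e1 := hk.trans_le ((min_le_left _ _).trans (min_le_left _ _))
    have e2 := hk.trans_le ((min_le_left _ _).trans (min_le_right _ _))
    have e3 := hk.trans_le ((min_le_right _ _).trans (min_le_left _ _))
    have e4 := hk.trans_le ((min_le_right _ _).trans (min_le_right _ _))
    exact ⟨⟨by linarith, by linarith⟩, by linarith, by linarith⟩

lemma integrableOn_rk {a b c d : ℝ} {v : ℝ × ℝ → ℝ}
    (hv : LocallyIntegrableOn v (Ioo a b ×ˢ Ioo c d)) (k : ℕ) :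
    IntegrableOn v (rk a b k ×ˢ rk c d k) := by
  have h0 : (0:ℝ) < 1 / (k + 1) := by positivity
  have h1 : Icc (a + 1 / ((k:ℝ) + 1)) (b - 1 / (k + 1)) ×ˢ Icc (c + 1 / ((k:ℝ) + 1)) (d - 1 / (k + 1)) ⊆
      Ioo a b ×ˢ Ioo c d :=
    prod_mono (Icc_subset_Ioo (by linarith) (by linarith))
      (Icc_subset_Ioo (by linarith) (by linarith))
  exact (hv.integrableOn_compact_subset h1 (isCompact_Icc.prod isCompact_Icc)).mono_set
    (prod_mono Ioo_subset_Icc_self Ioo_subset_Icc_self)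

lemma WeakFst.rk {a b c d : ℝ} {u v : ℝ × ℝ → ℝ} (H : WeakFst a b c d u v) (k : ℕ) :
    WeakFst (a + 1 / (k + 1)) (b - 1 / (k + 1)) (c + 1 / (k + 1)) (d - 1 / (k + 1)) u v := by
  have h0 : (0:ℝ) < 1 / (k + 1) := by positivity
  exact H.mono (by linarith) (by linarith) (by linarith) (by linarith)

/-- **a.e. existence of the derivative along lines** -/
lemma ae_hasDerivAt_fst {a b c d : ℝ} {u v : ℝ × ℝ → ℝ} (hu : Continuous u)
    (hv : LocallyIntegrableOn v (Ioo a b ×ˢ Ioo c d)) (H : WeakFst a b c d u v) :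
    ∀ᵐ z ∂(volume.restrict (Ioo a b ×ˢ Ioo c d)), HasDerivAt (fun x => u (x, z.2)) (v z) z.1 := by
  rw [← iUnion_rk, ae_restrict_iUnion_iff]
  intro k
  exact ae_hasDerivAt_fst_rect hu (integrableOn_rk hv k) (H.rk k)

/-- ACL on full lines -/
lemma acl_fst {a b c d : ℝ} {u v : ℝ × ℝ → ℝ} (hu : Continuous u)
    (hv : LocallyIntegrableOn v (Ioo a b ×ˢ Ioo c d)) (H : WeakFst a b c d u v) :
    ∀ᵐ y ∂(volume.restrict (Ioo c d)),
      ∀ x1 ∈ Ioo a b, ∀ x2 ∈ Ioo a b,
        IntervalIntegrable (fun s => v (s, y)) volume x1 x2 ∧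
        u (x2, y) - u (x1, y) = ∫ s in x1..x2, v (s, y) := by
  have h1 : ∀ᵐ y ∂(volume.restrict (Ioo c d)), ∀ k : ℕ, y ∈ rk c d k →
      IntegrableOn (fun s => v (s, y)) (rk a b k) ∧
      ∀ x1 ∈ rk a b k, ∀ x2 ∈ rk a b k,
        u (x2, y) - u (x1, y) = ∫ s in x1..x2, v (s, y) := by
    rw [ae_all_iff]
    intro k
    have h2 := acl_rect hu (integrableOn_rk hv k) (H.rk k)
    rw [ae_restrict_iff' measurableSet_Ioo] at h2
    exact ae_restrict_of_ae h2
  filter_upwards [h1, ae_restrict_mem measurableSet_Ioo] with y hy hyd x1 hx1 x2 hx2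
  have hm1 : (x1, y) ∈ Ioo a b ×ˢ Ioo c d := ⟨hx1, hyd⟩
  have hm2 : (x2, y) ∈ Ioo a b ×ˢ Ioo c d := ⟨hx2, hyd⟩
  rw [← iUnion_rk, mem_iUnion] at hm1 hm2
  obtain ⟨k1, hk1⟩ := hm1
  obtain ⟨k2, hk2⟩ := hm2
  have hmono : ∀ (a b : ℝ) {k l : ℕ}, k ≤ l → rk a b k ⊆ rk a b l := by
    intro a b k l hkl
    have : 1 / ((l:ℝ) + 1) ≤ 1 / ((k:ℝ) + 1) := by
      apply one_div_le_one_div_of_le (by positivity)
      have : (k:ℝ) ≤ l := by exact_mod_cast hkl
      linarith
    exact Ioo_subset_Ioo (by linarith) (by linarith)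
  obtain ⟨h3, h4⟩ := hy (max k1 k2) (hmono c d (le_max_left k1 k2) hk1.2)
  have m1 := hmono a b (le_max_left k1 k2) hk1.1
  have m2 := hmono a b (le_max_right k1 k2) hk2.1
  exact ⟨intervalIntegrable_of_loc h3.locallyIntegrableOn m1 m2, h4 x1 m1 x2 m2⟩

/-! #### Part D -/

section area

set_option linter.unusedSectionVars false

variable {E : Type*} [NormedAddCommGroup E] [NormedSpace ℝ E] [FiniteDimensional ℝ E]
  [MeasurableSpace E] [BorelSpace E] (μ : Measure E) [μ.IsAddHaarMeasure]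

/-- points with difference quotient error at most `1/(m+1)` at scales at most `1/(k+1)` -/
def goodSet (f : E → E) (w : E → E) (e : E) (m k : ℕ) : Set E :=
  {z | ∀ h : ℚ, |(h:ℝ)| < 1 / (k + 1) →
    ‖f (z + (h:ℝ) • e) - f z - (h:ℝ) • w z‖ ≤ |(h:ℝ)| * (1 / (m + 1))}

lemma measurableSet_goodSet {f w : E → E} (hf : Continuous f) (hw : Measurable w) (e : E)
    (m k : ℕ) : MeasurableSet (goodSet f w e m k) := by
  have : goodSet f w e m k = ⋂ h : ℚ, {z | |(h:ℝ)| < 1 / ((k:ℝ) + 1) →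
    ‖f (z + (h:ℝ) • e) - f z - (h:ℝ) • w z‖ ≤ |(h:ℝ)| * (1 / (m + 1))} := by
    ext z; simp [goodSet]
  rw [this]
  apply MeasurableSet.iInter
  intro h
  by_cases hh : |(h:ℝ)| < 1 / ((k:ℝ) + 1)
  · simp only [hh, true_imp_iff]
    apply measurableSet_le _ measurable_const
    have h1 : Measurable (fun z => f (z + (h:ℝ) • e) - f z) := by
      apply Continuous.measurable; fun_prop
    exact (h1.sub (hw.const_smul _)).norm
  · simp only [hh, false_imp_iff]
    exact MeasurableSet.univ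

lemma goodSet_real {f w : E → E} (hf : Continuous f) {e : E}
    {m k : ℕ} {z : E} (hz : z ∈ goodSet f w e m k) (h : ℝ) (hh : |h| < 1 / (k + 1)) :
    ‖f (z + h • e) - f z - h • w z‖ ≤ |h| * (1 / (m + 1)) := by
  by_contra hcon
  push Not at hcon
  have hopen : IsOpen {t : ℝ | |t| < 1 / (k + 1) ∧
      |t| * (1 / (m + 1)) < ‖f (z + t • e) - f z - t • w z‖} := by
    apply IsOpen.and
    · exact isOpen_lt (by fun_prop) (by fun_prop)
    · exact isOpen_lt (by fun_prop) (by fun_prop)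
  obtain ⟨q, hq1, hq2⟩ := Rat.denseRange_cast.exists_mem_open hopen ⟨h, hh, hcon⟩
  exact absurd (hz q hq1) (not_le.2 hq2)

lemma goodSet_mono {f w : E → E} {e : E} {m : ℕ} : Monotone (goodSet f w e m) := by
  intro k l hkl z hz h hh
  apply hz h (hh.trans_le _)
  apply one_div_le_one_div_of_le (by positivity)
  have : (k:ℝ) ≤ l := by exact_mod_cast hkl
  linarith

lemma exists_goodSet {f w : E → E} {e : E} (m : ℕ) {z : E}
    (h : HasLineDerivAt ℝ f (w z) z e) : ∃ k, z ∈ goodSet f w e m k := by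
  have h1 : HasDerivAt (fun t : ℝ => f (z + t • e)) (w z) 0 := h
  rw [hasDerivAt_iff_isLittleO_nhds_zero] at h1
  have h2 := h1.def (c := 1 / ((m:ℝ) + 1)) (by positivity)
  rw [Metric.eventually_nhds_iff] at h2
  obtain ⟨ε, hε, h3⟩ := h2
  obtain ⟨k, hk⟩ := exists_nat_one_div_lt hε
  refine ⟨k, fun t ht => ?_⟩
  have h4 := h3 (y := (t:ℝ)) (by rw [Real.dist_eq, sub_zero]; exact ht.trans hk)
  simp only [zero_add, zero_smul, add_zero, Real.norm_eq_abs] at h4
  rw [mul_comm]; exact h4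

variable {μ}

/-- Egorov type theorem -/
lemma exists_good {Ω : Set E} (hΩ : MeasurableSet Ω) (hfin : μ Ω ≠ (⊤ : ℝ≥0∞))
    {f : E → E} (hf : Continuous f) {D : E → E →L[ℝ] E} (hD : Measurable D) {e0 e1 : E}
    (h : ∀ᵐ z ∂(μ.restrict Ω), HasLineDerivAt ℝ f (D z e0) z e0 ∧
      HasLineDerivAt ℝ f (D z e1) z e1) {ε : ℝ≥0∞} (hε : ε ≠ 0) :
    ∃ s ⊆ Ω, MeasurableSet s ∧ μ (Ω \ s) ≤ ε ∧ ∀ m : ℕ, ∃ k : ℕ, ∀ z ∈ s,
      z ∈ goodSet f (fun z => D z e0) e0 m k ∧ z ∈ goodSet f (fun z => D z e1) e1 m k := by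
  have hm : ∀ e, Measurable (fun z => D z e) := fun e =>
    (ContinuousLinearMap.measurable_apply e).comp hD
  set G : ℕ → ℕ → Set E := fun m k =>
    Ω ∩ (goodSet f (fun z => D z e0) e0 m k ∩ goodSet f (fun z => D z e1) e1 m k) with hG
  have hGm : ∀ m k, MeasurableSet (G m k) := fun m k =>
    hΩ.inter ((measurableSet_goodSet hf (hm e0) e0 m k).inter
      (measurableSet_goodSet hf (hm e1) e1 m k))
  have hGmono : ∀ m, Monotone (G m) := fun m k l hkl =>
    inter_subset_inter_right _ (inter_subset_inter (goodSet_mono hkl) (goodSet_mono hkl))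
  obtain ⟨ε', hε'pos, hε'sum⟩ := ENNReal.exists_pos_sum_of_countable' hε ℕ
  have hlim : ∀ m, ∃ k, μ (Ω \ G m k) ≤ ε' m := by
    intro m
    have h1 : Tendsto (fun k => μ (Ω \ G m k)) atTop (𝓝 (μ (⋂ k, Ω \ G m k))) := by
      apply tendsto_measure_iInter_atTop
      · intro k; exact (hΩ.diff (hGm m k)).nullMeasurableSet
      · intro k l hkl; exact sdiff_subset_sdiff_right (hGmono m hkl)
      · exact ⟨0, ((measure_mono sdiff_subset).trans_lt hfin.lt_top).ne⟩
    have h2 : μ (⋂ k, Ω \ G m k) = 0 := by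
      rw [ae_restrict_iff' hΩ] at h
      apply measure_mono_null _ h
      intro z hz
      rw [mem_iInter] at hz
      simp only [mem_compl_iff, Set.mem_ofPred_eq]
      intro hcon
      have hzΩ : z ∈ Ω := (hz 0).1
      obtain ⟨hz0, hz1⟩ := hcon hzΩ
      obtain ⟨k0, hk0⟩ := exists_goodSet (w := fun z => D z e0) m hz0
      obtain ⟨k1, hk1⟩ := exists_goodSet (w := fun z => D z e1) m hz1
      exact (hz (max k0 k1)).2 ⟨hzΩ, goodSet_mono (le_max_left _ _) hk0,
        goodSet_mono (le_max_right _ _) hk1⟩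
    rw [h2] at h1
    exact ((tendsto_order.1 h1).2 (ε' m) (hε'pos m)).exists.imp fun k hk => hk.le
  choose k hk using hlim
  refine ⟨Ω ∩ ⋂ m, G m (k m), inter_subset_left,
    hΩ.inter (MeasurableSet.iInter fun m => hGm m (k m)), ?_, ?_⟩
  · rw [sdiff_self_inter, sdiff_iInter]
    refine (measure_iUnion_le _).trans ((ENNReal.tsum_le_tsum hk).trans hε'sum.le)
  · intro m
    refine ⟨k m, fun z hz => ?_⟩
    have := mem_iInter.1 hz.2 m
    exact this.2

lemma hasFDerivWithinAt_good {s : Set E} {f : E → E} (hf : Continuous f)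
    {D : E → E →L[ℝ] E} {e0 e1 : E} {l0 l1 : E →L[ℝ] ℝ}
    (hl : ∀ z, z = l0 z • e0 + l1 z • e1)
    (h : ∀ m : ℕ, ∃ k : ℕ, ∀ z ∈ s,
      z ∈ goodSet f (fun z => D z e0) e0 m k ∧ z ∈ goodSet f (fun z => D z e1) e1 m k) :
    ∀ p ∈ s, HasFDerivWithinAt f (D p) s p := by
  choose k hk using h
  -- continuity of `z ↦ D z e1` on `s`
  have hcont : ContinuousOn (fun z => D z e1) s := by
    have hunif : TendstoUniformlyOn (fun (m : ℕ) (z : E) =>
        ((1 / ((k m:ℝ) + 2))⁻¹ : ℝ) • (f (z + (1 / ((k m:ℝ) + 2)) • e1) - f z))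
        (fun z => D z e1) atTop s := by
      rw [Metric.tendstoUniformlyOn_iff]
      intro ε hε
      obtain ⟨N, hN⟩ := exists_nat_one_div_lt hε
      filter_upwards [eventually_ge_atTop N] with m hm z hz
      set h : ℝ := 1 / ((k m:ℝ) + 2) with hh
      have hpos : 0 < h := by positivity
      have hlt : |h| < 1 / ((k m : ℝ) + 1) := by
        rw [abs_of_pos hpos, hh]
        exact one_div_lt_one_div_of_lt (by positivity) (by linarith)
      have h1 := goodSet_real hf (hk m z hz).2 h hlt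
      have h2 : D z e1 - h⁻¹ • (f (z + h • e1) - f z) =
          -(h⁻¹ • (f (z + h • e1) - f z - h • D z e1)) := by
        rw [smul_sub h⁻¹ _ (h • D z e1), inv_smul_smul₀ hpos.ne']; abel
      rw [dist_eq_norm, h2, norm_neg, norm_smul, Real.norm_eq_abs, abs_inv]
      calc |h|⁻¹ * ‖f (z + h • e1) - f z - h • D z e1‖ ≤ |h|⁻¹ * (|h| * (1 / ((m:ℝ) + 1))) := by
            gcongr
        _ = 1 / ((m:ℝ) + 1) := by
            rw [← mul_assoc, inv_mul_cancel₀ (abs_pos.2 hpos.ne').ne', one_mul]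
        _ ≤ 1 / ((N:ℝ) + 1) := by
            apply one_div_le_one_div_of_le (by positivity)
            have : (N:ℝ) ≤ m := by exact_mod_cast hm
            linarith
        _ < ε := hN
    apply hunif.continuousOn
    apply Eventually.frequently
    exact Eventually.of_forall fun m => Continuous.continuousOn (by fun_prop)
  intro p hp
  rw [hasFDerivWithinAt_iff_isLittleO, Asymptotics.isLittleO_iff]
  intro c hc
  set M : ℝ := ‖l0‖ + ‖l1‖ + 1 with hM
  have hMpos : 0 < M := by positivity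
  obtain ⟨m, hm⟩ := exists_nat_one_div_lt (show 0 < c / (2 * M) by positivity)
  have hδ : 0 < 1 / ((k m : ℝ) + 1) := by positivity
  have hc1 : ∀ᶠ q in 𝓝[s] p, ‖D q e1 - D p e1‖ < c / (2 * M) := by
    have := (hcont p hp)
    rw [ContinuousWithinAt, Metric.tendsto_nhds] at this
    simpa [dist_eq_norm] using this (c / (2 * M)) (by positivity)
  have hball : ∀ᶠ q in 𝓝[s] p, ‖q - p‖ < 1 / ((k m : ℝ) + 1) / M := by
    apply eventually_nhdsWithin_of_eventually_nhds
    have := Metric.ball_mem_nhds p (show 0 < 1 / ((k m : ℝ) + 1) / M by positivity)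
    filter_upwards [this] with q hq
    rwa [Metric.mem_ball, dist_eq_norm] at hq
  filter_upwards [hc1, hball, self_mem_nhdsWithin] with q hq1 hq2 hqs
  set w := q - p with hw
  have hw0 : |l0 w| ≤ ‖l0‖ * ‖w‖ := by
    rw [← Real.norm_eq_abs]; exact l0.le_opNorm w
  have hw1 : |l1 w| ≤ ‖l1‖ * ‖w‖ := by
    rw [← Real.norm_eq_abs]; exact l1.le_opNorm w
  have hMw : M * ‖w‖ < 1 / ((k m : ℝ) + 1) := by
    rw [lt_div_iff₀ hMpos] at hq2; linarith
  have hn0 := norm_nonneg l0
  have hn1 := norm_nonneg l1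
  have hnw := norm_nonneg w
  have hw0' : |l0 w| < 1 / ((k m : ℝ) + 1) := by
    refine lt_of_le_of_lt (hw0.trans ?_) hMw
    gcongr
    linarith
  have hw1' : |-(l1 w)| < 1 / ((k m : ℝ) + 1) := by
    rw [abs_neg]
    refine lt_of_le_of_lt (hw1.trans ?_) hMw
    gcongr
    linarith
  have A := goodSet_real hf (hk m p hp).1 (l0 w) hw0'
  have B := goodSet_real hf (hk m q hqs).2 (-(l1 w)) hw1'
  have hcorner : q + (-(l1 w)) • e1 = p + (l0 w) • e0 := by
    have h1 : q = p + w := by rw [hw]; abel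
    have h2 := hl w
    have h3 : q = p + (l0 w • e0 + l1 w • e1) := by rw [← h2]; exact h1
    conv_lhs => rw [h3]
    rw [neg_smul]; abel
  rw [hcorner, abs_neg] at B
  have hdecomp : f q - f p - (D p) w =
      (f (p + l0 w • e0) - f p - l0 w • D p e0) -
      (f (p + l0 w • e0) - f q - (-(l1 w)) • D q e1) + l1 w • (D q e1 - D p e1) := by
    have h2 : D p w = l0 w • D p e0 + l1 w • D p e1 := by
      conv_lhs => rw [hl w]
      rw [map_add, map_smul, map_smul]
    rw [h2, neg_smul, smul_sub]; abel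
  rw [hdecomp]
  calc _ ≤ ‖f (p + l0 w • e0) - f p - l0 w • D p e0‖ +
        ‖f (p + l0 w • e0) - f q - (-(l1 w)) • D q e1‖ + ‖l1 w • (D q e1 - D p e1)‖ :=
        (norm_add_le _ _).trans (add_le_add_left (norm_sub_le _ _) _)
    _ ≤ |l0 w| * (1 / ((m:ℝ) + 1)) + |l1 w| * (1 / ((m:ℝ) + 1)) + |l1 w| * (c / (2 * M)) := by
        apply add_le_add (add_le_add A B)
        rw [norm_smul, Real.norm_eq_abs]
        gcongr
    _ ≤ (‖l0‖ * ‖w‖) * (c / (2 * M)) + (‖l1‖ * ‖w‖) * (c / (2 * M)) +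
          (‖l1‖ * ‖w‖) * (c / (2 * M)) := by
        gcongr
    _ = (‖l0‖ + 2 * ‖l1‖) / (2 * M) * (c * ‖w‖) := by field_simp; ring
    _ ≤ 1 * (c * ‖w‖) := by
        gcongr
        rw [div_le_one (by positivity), hM]; linarith
    _ = c * ‖w‖ := one_mul _

/-- **area inequality** -/
lemma area_ineq_aux {Ω : Set E} (hΩ : MeasurableSet Ω) (hfin : μ Ω ≠ (⊤ : ℝ≥0∞))
    {f : E → E} (hf : Continuous f) (hinj : InjOn f Ω) {D : E → E →L[ℝ] E} (hD : Measurable D)
    {e0 e1 : E} {l0 l1 : E →L[ℝ] ℝ} (hl : ∀ z, z = l0 z • e0 + l1 z • e1)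
    (h : ∀ᵐ z ∂(μ.restrict Ω), HasLineDerivAt ℝ f (D z e0) z e0 ∧
      HasLineDerivAt ℝ f (D z e1) z e1) :
    ∫⁻ z in Ω, ENNReal.ofReal |(D z).det| ∂μ ≤ μ (f '' Ω) := by
  have hdet : Measurable (fun z => ENNReal.ofReal |(D z).det|) := by
    apply Measurable.ennreal_ofReal
    apply (ContinuousLinearMap.continuous_det.measurable.comp hD).abs
  have hex : ∀ n : ℕ, ∃ s ⊆ Ω, MeasurableSet s ∧ μ (Ω \ s) ≤ (2⁻¹ : ℝ≥0∞) ^ n ∧
      ∀ p ∈ s, HasFDerivWithinAt f (D p) s p := by
    intro n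
    obtain ⟨s, hs1, hs2, hs3, hs4⟩ := exists_good hΩ hfin hf hD h
      (ε := (2⁻¹ : ℝ≥0∞) ^ n) (by simp)
    exact ⟨s, hs1, hs2, hs3, hasFDerivWithinAt_good hf hl hs4⟩
  choose s hs1 hs2 hs3 hs4 using hex
  have hbd : ∀ n, ∫⁻ z, (s n).indicator (fun z => ENNReal.ofReal |(D z).det|) z ∂μ ≤
      μ (f '' Ω) := by
    intro n
    rw [lintegral_indicator (hs2 n)]
    rw [lintegral_abs_det_fderiv_eq_addHaar_image μ (hs2 n) (hs4 n) (hinj.mono (hs1 n))]
    exact measure_mono (image_mono (hs1 n))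
  have hBC : ∀ᵐ z ∂μ, ∀ᶠ n in atTop, z ∉ Ω \ s n := by
    apply ae_eventually_notMem
    apply ne_top_of_le_ne_top _ (ENNReal.tsum_le_tsum hs3)
    rw [ENNReal.tsum_geometric]
    simp
  rw [← lintegral_indicator hΩ]
  have hliminf : ∀ᵐ z ∂μ, Ω.indicator (fun z => ENNReal.ofReal |(D z).det|) z ≤
      liminf (fun n => (s n).indicator (fun z => ENNReal.ofReal |(D z).det|) z) atTop := by
    filter_upwards [hBC] with z hz
    by_cases hzΩ : z ∈ Ω
    · rw [indicator_of_mem hzΩ]
      apply le_liminf_of_le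
      · exact ⟨⊤, by simp⟩
      · filter_upwards [hz] with n hn
        have : z ∈ s n := by
          by_contra hcon; exact hn ⟨hzΩ, hcon⟩
        rw [indicator_of_mem this]
    · rw [indicator_of_notMem hzΩ]; exact zero_le
  refine (lintegral_mono_ae hliminf).trans ?_
  refine (lintegral_liminf_le fun n => hdet.indicator (hs2 n)).trans ?_
  apply liminf_le_of_le
  · exact ⟨0, by simp⟩
  · intro b hb
    obtain ⟨n, hn⟩ := hb.exists
    exact hn.trans (hbd n)

lemma area_ineq {Ω : Set E} (hΩ : MeasurableSet Ω) (hfin : μ Ω ≠ (⊤ : ℝ≥0∞))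
    {f : E → E} (hf : Continuous f) (hinj : InjOn f Ω) {D : E → E →L[ℝ] E}
    (hD : AEStronglyMeasurable D (μ.restrict Ω))
    {e0 e1 : E} {l0 l1 : E →L[ℝ] ℝ} (hl : ∀ z, z = l0 z • e0 + l1 z • e1)
    (h : ∀ᵐ z ∂(μ.restrict Ω), HasLineDerivAt ℝ f (D z e0) z e0 ∧
      HasLineDerivAt ℝ f (D z e1) z e1) :
    ∫⁻ z in Ω, ENNReal.ofReal |(D z).det| ∂μ ≤ μ (f '' Ω) := by
  obtain ⟨D', hD'm, hD'⟩ := hD
  have h1 := area_ineq_aux hΩ hfin hf hinj hD'm.measurable hl (by
    filter_upwards [h, hD'] with z hz hz'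
    rw [← hz']; exact hz)
  refine le_trans (le_of_eq ?_) h1
  apply lintegral_congr_ae
  filter_upwards [hD'] with z hz
  rw [hz]

end area

/-! #### Part E -/

lemma flux_1d {a b : ℝ} (hab : a < b) {w v β β' : ℝ → ℝ} (hw : ContinuousOn w (Icc a b))
    (hwa : w a = 0) (hwb : w b = 0) (hv : IntegrableOn v (Ioo a b))
    (hf : ∀ x1 ∈ Ioo a b, ∀ x2 ∈ Ioo a b, w x2 - w x1 = ∫ s in x1..x2, v s)
    (hβ : ContDiffOn ℝ 1 β (Icc a b)) (hd : ∀ x ∈ Ioo a b, HasDerivAt β (β' x) x) :
    ∫ x in Ioo a b, v x * β x = - ∫ x in Ioo a b, w x * β' x := by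
  have hint : IntervalIntegrable v volume a b := by
    rw [intervalIntegrable_iff_integrableOn_Ioo_of_le hab.le]; exact hv
  have hPc : ContinuousOn (fun x => ∫ s in a..x, v s) (Icc a b) := by
    have := intervalIntegral.continuousOn_primitive_interval' hint (a := a) (by simp)
    rwa [uIcc_of_le hab.le] at this
  set T : ℝ → ℝ := fun x => w x - ∫ s in a..x, v s with hT
  have hTc : ContinuousOn T (Icc a b) := hw.sub hPc
  obtain ⟨x0, hx0⟩ : (Ioo a b).Nonempty := nonempty_Ioo.2 hab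
  have hsubint : ∀ x ∈ Ioo a b, IntervalIntegrable v volume a x := by
    intro x hx
    apply hint.mono_set
    rw [uIcc_of_le hx.1.le, uIcc_of_le hab.le]
    exact Icc_subset_Icc_right hx.2.le
  have hEq : EqOn T (fun _ => T x0) (Ioo a b) := by
    intro x hx
    have h1 := hf x0 hx0 x hx
    rw [← intervalIntegral.integral_interval_sub_left (hsubint x hx) (hsubint x0 hx0)] at h1
    simp only [hT]
    linarith
  have hEq2 : EqOn T (fun _ => T x0) (Icc a b) := by
    apply hEq.of_subset_closure hTc continuousOn_const Ioo_subset_Icc_self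
    rw [closure_Ioo hab.ne]
  have hTa : T x0 = 0 := by
    have := hEq2 (left_mem_Icc.2 hab.le)
    simp only [hT, intervalIntegral.integral_same, hwa, sub_self] at this ⊢
    exact this.symm
  have hwP : ∀ x ∈ Icc a b, w x = ∫ s in a..x, v s := by
    intro x hx
    have := hEq2 hx
    simp only [hTa] at this
    simp only [hT] at this
    linarith
  have h1 := hint.absolutelyContinuousOnInterval_intervalIntegral (c := a) (by simp)
  have h2 : AbsolutelyContinuousOnInterval β a b := by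
    apply ContDiffOn.absolutelyContinuousOnInterval
    rwa [uIcc_of_le hab.le]
  have h3 := h1.integral_mul_deriv_eq_deriv_mul h2
  simp only [intervalIntegral.integral_same, zero_mul, sub_zero] at h3
  rw [← hwP b (right_mem_Icc.2 hab.le), hwb, zero_mul, zero_sub] at h3
  have e1 : ∫ x in a..b, (∫ s in a..x, v s) * deriv β x = ∫ x in Ioo a b, w x * β' x := by
    rw [intervalIntegral.integral_of_le hab.le, integral_Ioc_eq_integral_Ioo]
    apply setIntegral_congr_fun measurableSet_Ioo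
    intro x hx
    simp only
    rw [(hd x hx).deriv, hwP x (Ioo_subset_Icc_self hx)]
  have e2 : ∫ x in a..b, deriv (fun x => ∫ s in a..x, v s) x * β x = ∫ x in Ioo a b, v x * β x := by
    rw [intervalIntegral.integral_of_le hab.le, integral_Ioc_eq_integral_Ioo]
    apply setIntegral_congr_ae measurableSet_Ioo
    filter_upwards [hint.ae_hasDerivAt_integral] with x hx hx2
    rw [(hx (by rw [uIcc_of_le hab.le]; exact Ioo_subset_Icc_self hx2) a (by simp)).deriv]
  rw [e1, e2] at h3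
  rw [h3, neg_neg]

/-- closed rectangle -/
abbrev crect (a b c d : ℝ) : Set (ℝ × ℝ) := Icc a b ×ˢ Icc c d

lemma flux_fst {a b c d : ℝ} (hab : a < b) {w v β β' : ℝ × ℝ → ℝ} (hw : Continuous w)
    (hwa : ∀ y ∈ Ioo c d, w (a, y) = 0) (hwb : ∀ y ∈ Ioo c d, w (b, y) = 0)
    (hv : IntegrableOn v (Ioo a b ×ˢ Ioo c d)) (H : WeakFst a b c d w v)
    (hβ : ContinuousOn β (crect a b c d)) (hβ' : ContinuousOn β' (crect a b c d))
    (hβ1 : ∀ y ∈ Ioo c d, ContDiffOn ℝ 1 (fun x => β (x, y)) (Icc a b))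
    (hd : ∀ y ∈ Ioo c d, ∀ x ∈ Ioo a b, HasDerivAt (fun x => β (x, y)) (β' (x, y)) x) :
    ∫ z in Ioo a b ×ˢ Ioo c d, v z * β z = - ∫ z in Ioo a b ×ˢ Ioo c d, w z * β' z := by
  have hsub : Ioo a b ×ˢ Ioo c d ⊆ crect a b c d :=
    prod_mono Ioo_subset_Icc_self Ioo_subset_Icc_self
  have hcomp : IsCompact (crect a b c d) := isCompact_Icc.prod isCompact_Icc
  have hRm : MeasurableSet (Ioo a b ×ˢ Ioo c d) := measurableSet_Ioo.prod measurableSet_Ioo
  have i1 : IntegrableOn (fun z => v z * β z) (Ioo a b ×ˢ Ioo c d) := by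
    obtain ⟨C, hC⟩ := hcomp.exists_bound_of_continuousOn hβ
    have := hv.bdd_mul (c := C) ((hβ.mono hsub).aestronglyMeasurable hRm) (by
      rw [ae_restrict_iff' hRm]
      exact Eventually.of_forall fun z hz => hC z (hsub hz))
    exact this.congr (Eventually.of_forall fun z => mul_comm _ _)
  have i2 : IntegrableOn (fun z => w z * β' z) (Ioo a b ×ˢ Ioo c d) :=
    ((hw.continuousOn.mul hβ').integrableOn_compact hcomp).mono_set hsub
  rw [IntegrableOn, restrict_rect] at i1 i2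
  rw [restrict_rect, integral_prod_symm _ i1, integral_prod_symm _ i2, ← integral_neg]
  apply integral_congr_ae
  filter_upwards [acl_rect hw hv H, ae_restrict_mem measurableSet_Ioo] with y hy hyd
  exact flux_1d hab (w := fun x => w (x, y)) (v := fun x => v (x, y)) (β := fun x => β (x, y))
    (β' := fun x => β' (x, y)) (by fun_prop) (hwa y hyd) (hwb y hyd) hy.1 hy.2 (hβ1 y hyd) (hd y hyd)

lemma map_swap_restrict (a b c d : ℝ) :
    MeasurePreserving (Prod.swap : ℝ × ℝ → ℝ × ℝ)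
      (volume.restrict (Ioo c d ×ˢ Ioo a b)) (volume.restrict (Ioo a b ×ˢ Ioo c d)) := by
  rw [restrict_rect, restrict_rect]
  exact Measure.measurePreserving_swap

lemma integral_swap_rect (a b c d : ℝ) (f : ℝ × ℝ → ℝ) :
    ∫ z in Ioo a b ×ˢ Ioo c d, f z = ∫ z in Ioo c d ×ˢ Ioo a b, f z.swap :=
  ((map_swap_restrict a b c d).integral_comp
    MeasurableEquiv.prodComm.measurableEmbedding f).symm

/-- weak derivative in the second direction, tested against products -/
def WeakSnd (a b c d : ℝ) (u v : ℝ × ℝ → ℝ) : Prop :=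
  ∀ φ ψ : ℝ → ℝ, ContDiff ℝ ∞ φ → HasCompactSupport φ → tsupport φ ⊆ Ioo a b →
    ContDiff ℝ ∞ ψ → HasCompactSupport ψ → tsupport ψ ⊆ Ioo c d →
      ∫ z in Ioo a b ×ˢ Ioo c d, (φ z.1 * deriv ψ z.2) * u z =
        - ∫ z in Ioo a b ×ˢ Ioo c d, (φ z.1 * ψ z.2) * v z

lemma WeakSnd.swap {a b c d : ℝ} {u v : ℝ × ℝ → ℝ} (H : WeakSnd a b c d u v) :
    WeakFst c d a b (fun z => u z.swap) (fun z => v z.swap) := by
  intro φ ψ hφ hφc hφs hψ hψc hψs
  have h1 := H ψ φ hψ hψc hψs hφ hφc hφs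
  rw [integral_swap_rect a b c d (fun z => ψ z.1 * deriv φ z.2 * u z),
    integral_swap_rect a b c d (fun z => ψ z.1 * φ z.2 * v z)] at h1
  simp only [Prod.fst_swap, Prod.snd_swap] at h1
  simp only [mul_comm (deriv φ _) (ψ _), mul_comm (φ _) (ψ _)]
  exact h1

lemma locallyIntegrableOn_swap {a b c d : ℝ} {v : ℝ × ℝ → ℝ}
    (hv : LocallyIntegrableOn v (Ioo a b ×ˢ Ioo c d)) :
    LocallyIntegrableOn (fun z : ℝ × ℝ => v z.swap) (Ioo c d ×ˢ Ioo a b) := by
  intro z hz
  have h1 : z.swap ∈ Ioo a b ×ˢ Ioo c d := ⟨hz.2, hz.1⟩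
  obtain ⟨s, hs, hs2⟩ := hv _ h1
  have hopen : IsOpen (Ioo a b ×ˢ Ioo c d) := isOpen_Ioo.prod isOpen_Ioo
  have hopen' : IsOpen (Ioo c d ×ˢ Ioo a b) := isOpen_Ioo.prod isOpen_Ioo
  rw [hopen.nhdsWithin_eq h1] at hs
  refine ⟨Prod.swap ⁻¹' s, ?_, ?_⟩
  · rw [hopen'.nhdsWithin_eq hz]
    exact continuous_swap.continuousAt.preimage_mem_nhds hs
  · have mp : MeasurePreserving (Prod.swap : ℝ × ℝ → ℝ × ℝ) volume volume :=
      Measure.measurePreserving_swap
    exact (mp.integrableOn_comp_preimage MeasurableEquiv.prodComm.measurableEmbedding).2 hs2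

lemma ae_hasDerivAt_snd {a b c d : ℝ} {u v : ℝ × ℝ → ℝ} (hu : Continuous u)
    (hv : LocallyIntegrableOn v (Ioo a b ×ˢ Ioo c d)) (H : WeakSnd a b c d u v) :
    ∀ᵐ z ∂(volume.restrict (Ioo a b ×ˢ Ioo c d)), HasDerivAt (fun y => u (z.1, y)) (v z) z.2 := by
  have h1 := ae_hasDerivAt_fst (u := fun z => u z.swap) (v := fun z => v z.swap)
    (hu.comp continuous_swap) (locallyIntegrableOn_swap hv) H.swap
  have h2 := (map_swap_restrict c d a b).quasiMeasurePreserving.ae h1
  filter_upwards [h2] with z hz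
  simpa using hz

lemma flux_snd {a b c d : ℝ} (hcd : c < d) {w v β β' : ℝ × ℝ → ℝ} (hw : Continuous w)
    (hwa : ∀ x ∈ Ioo a b, w (x, c) = 0) (hwb : ∀ x ∈ Ioo a b, w (x, d) = 0)
    (hv : IntegrableOn v (Ioo a b ×ˢ Ioo c d)) (H : WeakSnd a b c d w v)
    (hβ : ContinuousOn β (crect a b c d)) (hβ' : ContinuousOn β' (crect a b c d))
    (hβ1 : ∀ x ∈ Ioo a b, ContDiffOn ℝ 1 (fun y => β (x, y)) (Icc c d))
    (hd : ∀ x ∈ Ioo a b, ∀ y ∈ Ioo c d, HasDerivAt (fun y => β (x, y)) (β' (x, y)) y) :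
    ∫ z in Ioo a b ×ˢ Ioo c d, v z * β z = - ∫ z in Ioo a b ×ˢ Ioo c d, w z * β' z := by
  have hswap : MapsTo (Prod.swap : ℝ × ℝ → ℝ × ℝ) (crect c d a b) (crect a b c d) :=
    fun z hz => ⟨hz.2, hz.1⟩
  rw [integral_swap_rect a b c d (fun z => v z * β z),
    integral_swap_rect a b c d (fun z => w z * β' z)]
  have hv' : IntegrableOn (fun z : ℝ × ℝ => v z.swap) (Ioo c d ×ˢ Ioo a b) :=
    (map_swap_restrict a b c d).integrable_comp_emb
      MeasurableEquiv.prodComm.measurableEmbedding |>.2 hv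
  exact flux_fst hcd (w := fun z => w z.swap) (v := fun z => v z.swap)
    (β := fun z => β z.swap) (β' := fun z => β' z.swap) (hw.comp continuous_swap)
    hwa hwb hv' H.swap (hβ.comp continuous_swap.continuousOn hswap)
    (hβ'.comp continuous_swap.continuousOn hswap) hβ1 hd

/-! #### Part F -/

abbrev E2 := EuclideanSpace ℝ (Fin 2)

/-- chart -/
def pl (z : ℝ × ℝ) : E2 := !₂[z.1, z.2]

/-- inverse chart -/
def lp (x : E2) : ℝ × ℝ := (x 0, x 1)

@[simp] lemma pl_zero (z : ℝ × ℝ) : pl z 0 = z.1 := rfl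
@[simp] lemma pl_one (z : ℝ × ℝ) : pl z 1 = z.2 := rfl
@[simp] lemma lp_pl (z : ℝ × ℝ) : lp (pl z) = z := rfl
@[simp] lemma pl_lp (x : E2) : pl (lp x) = x := by
  ext i; fin_cases i <;> simp [pl, lp]

lemma continuous_pl : Continuous pl := by
  unfold pl; fun_prop

lemma continuous_lp : Continuous lp := by
  unfold lp; fun_prop

/-- chart as a homeomorphism -/
def plH : (ℝ × ℝ) ≃ₜ E2 where
  toFun := pl
  invFun := lp
  left_inv := lp_pl
  right_inv := pl_lp
  continuous_toFun := continuous_pl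
  continuous_invFun := continuous_lp

lemma mp_pl : MeasurePreserving pl volume volume :=
  (PiLp.volume_preserving_toLp (Fin 2)).comp (volume_preserving_finTwoArrow ℝ).symm

lemma emb_pl : MeasurableEmbedding pl := plH.measurableEmbedding

/-- open rectangle in the plane -/
def Rect (a b c d : ℝ) : Set E2 := {x | x 0 ∈ Ioo a b ∧ x 1 ∈ Ioo c d}

/-- closed rectangle in the plane -/
def CRect (a b c d : ℝ) : Set E2 := {x | x 0 ∈ Icc a b ∧ x 1 ∈ Icc c d}

lemma preimage_Rect (a b c d : ℝ) : pl ⁻¹' (Rect a b c d) = Ioo a b ×ˢ Ioo c d := by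
  ext z; simp [Rect, mem_prod]

lemma preimage_CRect (a b c d : ℝ) : pl ⁻¹' (CRect a b c d) = crect a b c d := by
  rfl

lemma image_pl (a b c d : ℝ) : pl '' (Ioo a b ×ˢ Ioo c d) = Rect a b c d := by
  rw [← preimage_Rect]; exact image_preimage_eq _ plH.surjective

lemma image_pl' (a b c d : ℝ) : pl '' (crect a b c d) = CRect a b c d := by
  rw [← preimage_CRect]; exact image_preimage_eq _ plH.surjective

lemma isOpen_Rect (a b c d : ℝ) : IsOpen (Rect a b c d) := by
  rw [← image_pl]; exact plH.isOpenMap _ (isOpen_Ioo.prod isOpen_Ioo)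

lemma measurableSet_Rect (a b c d : ℝ) : MeasurableSet (Rect a b c d) :=
  (isOpen_Rect a b c d).measurableSet

lemma isCompact_CRect (a b c d : ℝ) : IsCompact (CRect a b c d) := by
  rw [← image_pl']; exact (isCompact_Icc.prod isCompact_Icc).image continuous_pl

lemma Rect_subset (a b c d : ℝ) : Rect a b c d ⊆ CRect a b c d :=
  fun _ hx => ⟨Ioo_subset_Icc_self hx.1, Ioo_subset_Icc_self hx.2⟩

lemma closure_Rect {a b c d : ℝ} (hab : a < b) (hcd : c < d) :
    closure (Rect a b c d) = CRect a b c d := by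
  rw [← image_pl, ← image_pl']
  have := plH.image_closure (Ioo a b ×ˢ Ioo c d)
  change pl '' _ = closure (pl '' _) at this
  rw [← this, closure_prod_eq, closure_Ioo hab.ne, closure_Ioo hcd.ne]

lemma frontier_Rect {a b c d : ℝ} (hab : a < b) (hcd : c < d) :
    frontier (Rect a b c d) = CRect a b c d \ Rect a b c d := by
  rw [(isOpen_Rect a b c d).frontier_eq, closure_Rect hab hcd]

lemma isConnected_Rect {a b c d : ℝ} (hab : a < b) (hcd : c < d) :
    IsConnected (Rect a b c d) := by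
  rw [← image_pl]
  exact ((isConnected_Ioo hab).prod (isConnected_Ioo hcd)).image _ continuous_pl.continuousOn

lemma isBounded_Rect (a b c d : ℝ) : Bornology.IsBounded (Rect a b c d) :=
  (isCompact_CRect a b c d).isBounded.subset (Rect_subset a b c d)

lemma volume_Rect_ne_top (a b c d : ℝ) : volume (Rect a b c d) ≠ ⊤ :=
  (isBounded_Rect a b c d).measure_lt_top.ne

lemma mp_Rect (a b c d : ℝ) : MeasurePreserving pl
    (volume.restrict (Ioo a b ×ˢ Ioo c d)) (volume.restrict (Rect a b c d)) := by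
  have := mp_pl.restrict_preimage (measurableSet_Rect a b c d)
  rwa [preimage_Rect] at this

lemma integral_Rect {a b c d : ℝ} (f : E2 → ℝ) :
    ∫ x in Rect a b c d, f x = ∫ z in Ioo a b ×ˢ Ioo c d, f (pl z) :=
  ((mp_Rect a b c d).integral_comp emb_pl f).symm

lemma ae_Rect {a b c d : ℝ} {P : E2 → Prop}
    (h : ∀ᵐ z ∂(volume.restrict (Ioo a b ×ˢ Ioo c d)), P (pl z)) :
    ∀ᵐ x ∂(volume.restrict (Rect a b c d)), P x := by
  have hmp : MeasurePreserving lp (volume.restrict (Rect a b c d))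
      (volume.restrict (Ioo a b ×ˢ Ioo c d)) := by
    have := (mp_Rect a b c d).symm plH.toMeasurableEquiv
    exact this
  have := hmp.quasiMeasurePreserving.ae h
  filter_upwards [this] with x hx
  simpa using hx

/-- clamping -/
def clamp (a b c d : ℝ) (x : E2) : E2 := pl (max a (min b (x 0)), max c (min d (x 1)))

lemma continuous_clamp (a b c d : ℝ) : Continuous (clamp a b c d) := by
  apply continuous_pl.comp; fun_prop

lemma clamp_mem {a b c d : ℝ} (hab : a ≤ b) (hcd : c ≤ d) (x : E2) :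
    clamp a b c d x ∈ CRect a b c d := by
  constructor
  · simp [clamp, hab]
  · simp [clamp, hcd]

lemma clamp_eq {a b c d : ℝ} {x : E2} (hx : x ∈ CRect a b c d) : clamp a b c d x = x := by
  obtain ⟨⟨h1, h2⟩, h3, h4⟩ := hx
  ext i; fin_cases i <;> simp [clamp, h1, h2, h3, h4]

/-! #### Part G -/

structure WDiff {n : ℕ} (Ω : Set (E n)) (f : E n → E n)
    (Df : E n → (E n →L[ℝ] E n)) : Prop where
  locInt : LocallyIntegrableOn f Ω volume
  locInt_differential : LocallyIntegrableOn Df Ω volume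
  weak : ∀ φ : E n → ℝ, ContDiff ℝ ∞ φ → HasCompactSupport φ → tsupport φ ⊆ Ω →
    ∀ i j : Fin n, ∫ x in Ω, fderiv ℝ φ x (ei j) * f x i = - ∫ x in Ω, φ x * Df x (ei j) i

lemma ei_zero_eq : (ei 0 : E2) = pl (1, 0) := by
  ext i; fin_cases i <;> simp [pl]

lemma ei_one_eq : (ei 1 : E2) = pl (0, 1) := by
  ext i; fin_cases i <;> simp [pl]

/-- product test functions -/
lemma test_product {φ ψ : ℝ → ℝ} (hφ : ContDiff ℝ ∞ φ) (hφc : HasCompactSupport φ)
    (hψ : ContDiff ℝ ∞ ψ) (hψc : HasCompactSupport ψ) {a b c d : ℝ}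
    (hφs : tsupport φ ⊆ Ioo a b) (hψs : tsupport ψ ⊆ Ioo c d) :
    ContDiff ℝ ∞ (fun x : E2 => φ (x 0) * ψ (x 1)) ∧
    HasCompactSupport (fun x : E2 => φ (x 0) * ψ (x 1)) ∧
    tsupport (fun x : E2 => φ (x 0) * ψ (x 1)) ⊆ Rect a b c d ∧
    (∀ x : E2, fderiv ℝ (fun x : E2 => φ (x 0) * ψ (x 1)) x (ei 0) = deriv φ (x 0) * ψ (x 1)) ∧
    (∀ x : E2, fderiv ℝ (fun x : E2 => φ (x 0) * ψ (x 1)) x (ei 1) = φ (x 0) * deriv ψ (x 1)) := by
  have hsub : tsupport (fun x : E2 => φ (x 0) * ψ (x 1)) ⊆ lp ⁻¹' (tsupport φ ×ˢ tsupport ψ) := by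
    apply closure_minimal
    · intro x hx
      rw [Function.mem_support] at hx
      exact ⟨subset_tsupport _ (left_ne_zero_of_mul hx), subset_tsupport _ (right_ne_zero_of_mul hx)⟩
    · exact ((isClosed_tsupport φ).prod (isClosed_tsupport ψ)).preimage continuous_lp
  have hK : IsCompact (lp ⁻¹' (tsupport φ ×ˢ tsupport ψ)) := by
    have h1 : lp ⁻¹' (tsupport φ ×ˢ tsupport ψ) = pl '' (tsupport φ ×ˢ tsupport ψ) := by
      exact (plH.image_eq_preimage_symm _).symm
    rw [h1]
    exact (hφc.isCompact.prod hψc.isCompact).image continuous_pl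
  have hd : ∀ x : E2, HasFDerivAt (fun x : E2 => φ (x 0) * ψ (x 1))
      (φ (x 0) • ((deriv ψ (x 1)) • (EuclideanSpace.proj 1 : E2 →L[ℝ] ℝ)) +
        ψ (x 1) • ((deriv φ (x 0)) • (EuclideanSpace.proj 0 : E2 →L[ℝ] ℝ))) x := by
    intro x
    have h0 : HasFDerivAt (fun x : E2 => x 0) (EuclideanSpace.proj 0 : E2 →L[ℝ] ℝ) x :=
      (EuclideanSpace.proj 0 : E2 →L[ℝ] ℝ).hasFDerivAt
    have h1 : HasFDerivAt (fun x : E2 => x 1) (EuclideanSpace.proj 1 : E2 →L[ℝ] ℝ) x :=
      (EuclideanSpace.proj 1 : E2 →L[ℝ] ℝ).hasFDerivAt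
    have h2 : HasDerivAt φ (deriv φ (x 0)) (x 0) :=
      ((hφ.differentiable (by simp)) _).hasDerivAt
    have h3 : HasDerivAt ψ (deriv ψ (x 1)) (x 1) :=
      ((hψ.differentiable (by simp)) _).hasDerivAt
    exact (h2.comp_hasFDerivAt x h0).mul (h3.comp_hasFDerivAt x h1)
  refine ⟨?_, HasCompactSupport.of_support_subset_isCompact hK ((subset_tsupport _).trans hsub),
    ?_, ?_, ?_⟩
  · have e0 : ContDiff ℝ ∞ (fun x : E2 => x 0) := (EuclideanSpace.proj 0 : E2 →L[ℝ] ℝ).contDiff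
    have e1 : ContDiff ℝ ∞ (fun x : E2 => x 1) := (EuclideanSpace.proj 1 : E2 →L[ℝ] ℝ).contDiff
    exact (hφ.comp e0).mul (hψ.comp e1)
  · intro x hx
    have := hsub hx
    exact ⟨hφs this.1, hψs this.2⟩
  · intro x
    rw [(hd x).fderiv]
    simp [mul_comm]
  · intro x
    rw [(hd x).fderiv]
    simp

/-- matrix entries in the chart -/
def ent (D : E2 → (E2 →L[ℝ] E2)) (i j : Fin 2) (z : ℝ × ℝ) : ℝ := D (pl z) (ei j) i

lemma locallyIntegrableOn_pl {F : Type*} [NormedAddCommGroup F] {a b c d : ℝ} {h : E2 → F}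
    (hh : LocallyIntegrableOn h (Rect a b c d)) :
    LocallyIntegrableOn (fun z => h (pl z)) (Ioo a b ×ˢ Ioo c d) := by
  intro z hz
  have h1 : pl z ∈ Rect a b c d := by
    rw [← mem_preimage, preimage_Rect]; exact hz
  obtain ⟨s, hs, hs2⟩ := hh _ h1
  rw [(isOpen_Rect a b c d).nhdsWithin_eq h1] at hs
  refine ⟨pl ⁻¹' s, ?_, ?_⟩
  · rw [(isOpen_Ioo.prod isOpen_Ioo).nhdsWithin_eq hz]
    exact continuous_pl.continuousAt.preimage_mem_nhds hs
  · exact (mp_pl.integrableOn_comp_preimage emb_pl).2 hs2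

lemma locallyIntegrableOn_ent {a b c d : ℝ} {D : E2 → (E2 →L[ℝ] E2)}
    (hD : LocallyIntegrableOn D (Rect a b c d)) (i j : Fin 2) :
    LocallyIntegrableOn (ent D i j) (Ioo a b ×ˢ Ioo c d) := by
  apply locallyIntegrableOn_pl (h := fun x => D x (ei j) i)
  intro x hx
  obtain ⟨s, hs, hs2⟩ := hD x hx
  refine ⟨s, hs, ?_⟩
  let L : (E2 →L[ℝ] E2) →L[ℝ] ℝ := (EuclideanSpace.proj i : E2 →L[ℝ] ℝ).comp
    (ContinuousLinearMap.apply ℝ E2 (ei j))
  exact L.integrable_comp hs2

lemma WDiff.weakFst {a b c d : ℝ} {f : E2 → E2} {D : E2 → (E2 →L[ℝ] E2)}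
    (h : WDiff (Rect a b c d) f D) (i : Fin 2) :
    WeakFst a b c d (fun z => f (pl z) i) (ent D i 0) := by
  intro φ ψ hφ hφc hφs hψ hψc hψs
  obtain ⟨h1, h2, h3, h4, h5⟩ := test_product hφ hφc hψ hψc hφs hψs
  have := h.weak _ h1 h2 h3 i 0
  simp only [h4] at this
  rw [integral_Rect, integral_Rect] at this
  exact this

lemma WDiff.weakSnd {a b c d : ℝ} {f : E2 → E2} {D : E2 → (E2 →L[ℝ] E2)}
    (h : WDiff (Rect a b c d) f D) (i : Fin 2) :
    WeakSnd a b c d (fun z => f (pl z) i) (ent D i 1) := by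
  intro φ ψ hφ hφc hφs hψ hψc hψs
  obtain ⟨h1, h2, h3, h4, h5⟩ := test_product hφ hφc hψ hψc hφs hψs
  have := h.weak _ h1 h2 h3 i 1
  simp only [h5] at this
  rw [integral_Rect, integral_Rect] at this
  exact this

lemma WDiff.congr {n : ℕ} {Ω : Set (E n)} (hΩ : MeasurableSet Ω)
    {f f' : E n → E n} {D : E n → (E n →L[ℝ] E n)}
    (h : WDiff Ω f D) (hff' : EqOn f f' Ω) : WDiff Ω f' D where
  locInt := by
    intro x hx
    obtain ⟨s, hs, hs2⟩ := h.locInt x hx
    refine ⟨s ∩ Ω, inter_mem hs self_mem_nhdsWithin, ?_⟩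
    have h1 : IntegrableOn f (s ∩ Ω) := hs2.mono_set inter_subset_left
    rw [inter_comm] at h1 ⊢
    have h3 : IntegrableOn f (Ω ∩ s) := h1
    have : f =ᵐ[volume.restrict (Ω ∩ s)] f' := by
      have h4 : f =ᵐ[volume.restrict Ω] f' := by
        rw [Filter.EventuallyEq, ae_restrict_iff' hΩ]
        exact Eventually.of_forall hff'
      exact ae_mono (Measure.restrict_mono inter_subset_left le_rfl) h4
    exact h3.congr this
  locInt_differential := h.locInt_differential
  weak := by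
    intro φ h1 h2 h3 i j
    rw [← h.weak φ h1 h2 h3 i j]
    apply setIntegral_congr_fun hΩ
    intro x hx
    simp only
    rw [hff' hx]

lemma hasDerivAt_euclid {F : ℝ → E2} {F' : E2} {t : ℝ}
    (h : ∀ i, HasDerivAt (fun s => F s i) (F' i) t) : HasDerivAt F F' t := by
  rw [hasDerivAt_iff_hasFDerivAt, ← hasFDerivWithinAt_univ, hasFDerivWithinAt_euclidean]
  intro i
  have h1 := (h i).hasFDerivAt.hasFDerivWithinAt (s := univ)
  have h2 : PiLp.proj 2 (fun _ : Fin 2 => ℝ) i ∘SL ContinuousLinearMap.toSpanSingleton ℝ F' =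
      ContinuousLinearMap.toSpanSingleton ℝ (F' i) := by
    ext; simp
  rw [h2]
  exact h1

lemma ae_hasLineDerivAt {a b c d : ℝ} {f : E2 → E2} (hf : Continuous f)
    {D : E2 → (E2 →L[ℝ] E2)}
    (h : WDiff (Rect a b c d) f D) :
    ∀ᵐ x ∂(volume.restrict (Rect a b c d)), HasLineDerivAt ℝ f (D x (ei 0)) x (ei 0) ∧
      HasLineDerivAt ℝ f (D x (ei 1)) x (ei 1) := by
  apply ae_Rect
  have hc : ∀ i : Fin 2, Continuous (fun z => f (pl z) i) := fun i =>
    (EuclideanSpace.proj i : E2 →L[ℝ] ℝ).continuous.comp (hf.comp continuous_pl)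
  have A : ∀ i : Fin 2, ∀ᵐ z ∂(volume.restrict (Ioo a b ×ˢ Ioo c d)),
      HasDerivAt (fun x => f (pl (x, z.2)) i) (ent D i 0 z) z.1 := fun i =>
    ae_hasDerivAt_fst (hc i) (locallyIntegrableOn_ent h.locInt_differential i 0) (h.weakFst i)
  have B : ∀ i : Fin 2, ∀ᵐ z ∂(volume.restrict (Ioo a b ×ˢ Ioo c d)),
      HasDerivAt (fun y => f (pl (z.1, y)) i) (ent D i 1 z) z.2 := fun i =>
    ae_hasDerivAt_snd (hc i) (locallyIntegrableOn_ent h.locInt_differential i 1) (h.weakSnd i)
  filter_upwards [ae_all_iff.2 A, ae_all_iff.2 B] with z hA hB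
  constructor
  · apply hasDerivAt_euclid
    intro i
    have h1 := hA i
    have h2 : HasDerivAt (fun t : ℝ => z.1 + t) 1 0 := by
      simpa using (hasDerivAt_id (0:ℝ)).const_add z.1
    have h3 := HasDerivAt.comp (0:ℝ) (h₂ := fun x => f (pl (x, z.2)) i) (by simpa using h1) h2
    have hfun : (fun t : ℝ => f (pl z + t • ei 0) i) =
        (fun x => f (pl (x, z.2)) i) ∘ (fun t : ℝ => z.1 + t) := by
      funext t
      have harg : pl z + t • ei 0 = pl (z.1 + t, z.2) := by
        rw [ei_zero_eq]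
        ext k; fin_cases k <;> simp [pl]
      simp only [Function.comp, harg]
    rw [hfun]
    rw [mul_one] at h3
    exact h3
  · apply hasDerivAt_euclid
    intro i
    have h1 := hB i
    have h2 : HasDerivAt (fun t : ℝ => z.2 + t) 1 0 := by
      simpa using (hasDerivAt_id (0:ℝ)).const_add z.2
    have h3 := HasDerivAt.comp (0:ℝ) (h₂ := fun x => f (pl (z.1, x)) i) (by simpa using h1) h2
    have hfun : (fun t : ℝ => f (pl z + t • ei 1) i) =
        (fun x => f (pl (z.1, x)) i) ∘ (fun t : ℝ => z.2 + t) := by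
      funext t
      have harg : pl z + t • ei 1 = pl (z.1, z.2 + t) := by
        rw [ei_one_eq]
        ext k; fin_cases k <;> simp [pl]
      simp only [Function.comp, harg]
    rw [hfun]
    rw [mul_one] at h3
    exact h3

/-- **area inequality for weakly differentiable injective maps of a rectangle** -/
lemma area_Rect {a b c d : ℝ} (hab : a < b) (hcd : c < d) {f : E2 → E2}
    (hf : ContinuousOn f (CRect a b c d))
    (hinj : InjOn f (Rect a b c d)) {D : E2 → (E2 →L[ℝ] E2)}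
    (h : WDiff (Rect a b c d) f D) :
    ∫⁻ x in Rect a b c d, ENNReal.ofReal |(D x).det| ≤ volume (f '' Rect a b c d) := by
  set F : E2 → E2 := fun x => f (clamp a b c d x) with hF
  have hFc : Continuous F := by
    rw [← continuousOn_univ]
    exact hf.comp (continuous_clamp a b c d).continuousOn (fun x _ => clamp_mem hab.le hcd.le x)
  have hFf : EqOn f F (Rect a b c d) := by
    intro x hx
    simp only [hF]
    rw [clamp_eq (Rect_subset a b c d hx)]
  have h1 : WDiff (Rect a b c d) F D := h.congr (measurableSet_Rect a b c d) hFf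
  have h2 := area_ineq (μ := volume) (measurableSet_Rect a b c d) (volume_Rect_ne_top a b c d) hFc
    (hinj.congr hFf) (h.locInt_differential.aestronglyMeasurable)
    (e0 := ei 0) (e1 := ei 1) (l0 := (EuclideanSpace.proj 0 : E2 →L[ℝ] ℝ))
    (l1 := (EuclideanSpace.proj 1 : E2 →L[ℝ] ℝ)) (by
      intro z; ext i; fin_cases i <;> simp) (ae_hasLineDerivAt hFc h1)
  rwa [← hFf.image_eq] at h2

/-! #### Part H -/

lemma integrableOn_bdd_mul {R : Set (ℝ × ℝ)} (hR : MeasurableSet R) {h v : ℝ × ℝ → ℝ}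
    {K : Set (ℝ × ℝ)} (hK : IsCompact K) (hRK : R ⊆ K) (hh : ContinuousOn h K)
    (hv : IntegrableOn v R) : IntegrableOn (fun z => h z * v z) R := by
  obtain ⟨C, hC⟩ := hK.exists_bound_of_continuousOn hh
  exact hv.bdd_mul (c := C) ((hh.mono hRK).aestronglyMeasurable hR) (by
    rw [ae_restrict_iff' hR]
    exact Eventually.of_forall fun z hz => hC z (hRK hz))

lemma rect_sub_crect (a b c d : ℝ) : Ioo a b ×ˢ Ioo c d ⊆ crect a b c d :=
  prod_mono Ioo_subset_Icc_self Ioo_subset_Icc_self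

lemma isCompact_crect (a b c d : ℝ) : IsCompact (crect a b c d) := isCompact_Icc.prod isCompact_Icc

lemma measurableSet_rect (a b c d : ℝ) : MeasurableSet (Ioo a b ×ˢ Ioo c d) :=
  measurableSet_Ioo.prod measurableSet_Ioo

lemma WeakFst.sub {a b c d : ℝ} {u v u' v' : ℝ × ℝ → ℝ} (H : WeakFst a b c d u v)
    (H' : WeakFst a b c d u' v') (hu : Continuous u) (hu' : Continuous u')
    (hv : IntegrableOn v (Ioo a b ×ˢ Ioo c d)) (hv' : IntegrableOn v' (Ioo a b ×ˢ Ioo c d)) :
    WeakFst a b c d (fun z => u z - u' z) (fun z => v z - v' z) := by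
  intro φ ψ hφ hφc hφs hψ hψc hψs
  have h1 := H φ ψ hφ hφc hφs hψ hψc hψs
  have h2 := H' φ ψ hφ hφc hφs hψ hψc hψs
  have hR := measurableSet_rect a b c d
  have hK := isCompact_crect a b c d
  have hs := rect_sub_crect a b c d
  have c1 : Continuous (fun z : ℝ × ℝ => deriv φ z.1 * ψ z.2) := by
    have h3 := hψ.continuous
    have h4 : Continuous (deriv φ) := hφ.continuous_deriv (by simp)
    fun_prop
  have c2 : Continuous (fun z : ℝ × ℝ => φ z.1 * ψ z.2) := by
    have h3 := hψ.continuous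
    have h4 := hφ.continuous
    fun_prop
  have i : ∀ u : ℝ × ℝ → ℝ, Continuous u → IntegrableOn u (Ioo a b ×ˢ Ioo c d) := fun u hu =>
    (hu.continuousOn.integrableOn_compact hK).mono_set hs
  simp only [mul_sub]
  rw [integral_sub (integrableOn_bdd_mul hR hK hs c1.continuousOn (i u hu))
      (integrableOn_bdd_mul hR hK hs c1.continuousOn (i u' hu')),
    integral_sub (integrableOn_bdd_mul hR hK hs c2.continuousOn hv)
      (integrableOn_bdd_mul hR hK hs c2.continuousOn hv'), h1, h2]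
  ring

lemma WeakSnd.sub {a b c d : ℝ} {u v u' v' : ℝ × ℝ → ℝ} (H : WeakSnd a b c d u v)
    (H' : WeakSnd a b c d u' v') (hu : Continuous u) (hu' : Continuous u')
    (hv : IntegrableOn v (Ioo a b ×ˢ Ioo c d)) (hv' : IntegrableOn v' (Ioo a b ×ˢ Ioo c d)) :
    WeakSnd a b c d (fun z => u z - u' z) (fun z => v z - v' z) := by
  intro φ ψ hφ hφc hφs hψ hψc hψs
  have h1 := H φ ψ hφ hφc hφs hψ hψc hψs
  have h2 := H' φ ψ hφ hφc hφs hψ hψc hψs
  have hR := measurableSet_rect a b c d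
  have hK := isCompact_crect a b c d
  have hs := rect_sub_crect a b c d
  have c1 : Continuous (fun z : ℝ × ℝ => φ z.1 * deriv ψ z.2) := by
    have h3 := hφ.continuous
    have h4 : Continuous (deriv ψ) := hψ.continuous_deriv (by simp)
    fun_prop
  have c2 : Continuous (fun z : ℝ × ℝ => φ z.1 * ψ z.2) := by
    have h3 := hψ.continuous
    have h4 := hφ.continuous
    fun_prop
  have i : ∀ u : ℝ × ℝ → ℝ, Continuous u → IntegrableOn u (Ioo a b ×ˢ Ioo c d) := fun u hu =>
    (hu.continuousOn.integrableOn_compact hK).mono_set hs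
  simp only [mul_sub]
  rw [integral_sub (integrableOn_bdd_mul hR hK hs c1.continuousOn (i u hu))
      (integrableOn_bdd_mul hR hK hs c1.continuousOn (i u' hu')),
    integral_sub (integrableOn_bdd_mul hR hK hs c2.continuousOn hv)
      (integrableOn_bdd_mul hR hK hs c2.continuousOn hv'), h1, h2]
  ring

lemma flux_zero {a b c d : ℝ} (ha : 0 < a) (hab : a < b) (hcd : c < d)
    {w v1 v2 : ℝ × ℝ → ℝ} (hw : Continuous w)
    (hw0 : ∀ z ∈ crect a b c d, z ∉ Ioo a b ×ˢ Ioo c d → w z = 0)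
    (hv1 : IntegrableOn v1 (Ioo a b ×ˢ Ioo c d)) (hv2 : IntegrableOn v2 (Ioo a b ×ˢ Ioo c d))
    (H1 : WeakFst a b c d w v1) (H2 : WeakSnd a b c d w v2) :
    ∫ z in Ioo a b ×ˢ Ioo c d, (v1 z * (z.1 / (z.1 ^ 2 + z.2 ^ 2)) +
      v2 z * (z.2 / (z.1 ^ 2 + z.2 ^ 2))) = 0 := by
  have hR := measurableSet_rect a b c d
  have hK := isCompact_crect a b c d
  have hs := rect_sub_crect a b c d
  have hpos : ∀ x ∈ Icc a b, ∀ y : ℝ, x ^ 2 + y ^ 2 ≠ 0 := by
    intro x hx y
    have : 0 < x := ha.trans_le hx.1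
    positivity
  have hposK : ∀ z ∈ crect a b c d, z.1 ^ 2 + z.2 ^ 2 ≠ 0 := fun z hz => hpos z.1 hz.1 z.2
  have cβ1 : ContinuousOn (fun z : ℝ × ℝ => z.1 / (z.1 ^ 2 + z.2 ^ 2)) (crect a b c d) :=
    ContinuousOn.div (by fun_prop) (by fun_prop) hposK
  have cβ2 : ContinuousOn (fun z : ℝ × ℝ => z.2 / (z.1 ^ 2 + z.2 ^ 2)) (crect a b c d) :=
    ContinuousOn.div (by fun_prop) (by fun_prop) hposK
  have cβ1' : ContinuousOn (fun z : ℝ × ℝ => (z.2 ^ 2 - z.1 ^ 2) / (z.1 ^ 2 + z.2 ^ 2) ^ 2)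
      (crect a b c d) :=
    ContinuousOn.div (by fun_prop) (by fun_prop) (fun z hz => pow_ne_zero 2 (hposK z hz))
  have cβ2' : ContinuousOn (fun z : ℝ × ℝ => (z.1 ^ 2 - z.2 ^ 2) / (z.1 ^ 2 + z.2 ^ 2) ^ 2)
      (crect a b c d) :=
    ContinuousOn.div (by fun_prop) (by fun_prop) (fun z hz => pow_ne_zero 2 (hposK z hz))
  have f1 := flux_fst hab hw
    (fun y hy => hw0 (a, y) ⟨left_mem_Icc.2 hab.le, Ioo_subset_Icc_self hy⟩
      (fun h => lt_irrefl _ h.1.1))
    (fun y hy => hw0 (b, y) ⟨right_mem_Icc.2 hab.le, Ioo_subset_Icc_self hy⟩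
      (fun h => lt_irrefl _ h.1.2)) hv1 H1 cβ1 cβ1'
    (by
      intro y hy
      exact ContDiffOn.div (by fun_prop) (by fun_prop) (fun x hx => hpos x hx y))
    (by
      intro y hy x hx
      have h0 := hpos x (Ioo_subset_Icc_self hx) y
      have h1 : HasDerivAt (fun x : ℝ => x ^ 2 + y ^ 2) (2 * x) x := by
        simpa using (hasDerivAt_pow 2 x).add_const (y ^ 2)
      have h2 := (hasDerivAt_id x).div h1 h0
      have h3 : (1 * (x ^ 2 + y ^ 2) - id x * (2 * x)) / (x ^ 2 + y ^ 2) ^ 2 =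
          (y ^ 2 - x ^ 2) / (x ^ 2 + y ^ 2) ^ 2 := by
        simp only [id]; congr 1; ring
      rw [h3] at h2
      exact h2)
  have f2 := flux_snd hcd hw
    (fun x hx => hw0 (x, c) ⟨Ioo_subset_Icc_self hx, left_mem_Icc.2 hcd.le⟩
      (fun h => lt_irrefl _ h.2.1))
    (fun x hx => hw0 (x, d) ⟨Ioo_subset_Icc_self hx, right_mem_Icc.2 hcd.le⟩
      (fun h => lt_irrefl _ h.2.2)) hv2 H2 cβ2 cβ2'
    (by
      intro x hx
      exact ContDiffOn.div (by fun_prop) (by fun_prop)
        (fun y _ => hpos x (Ioo_subset_Icc_self hx) y))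
    (by
      intro x hx y hy
      have h0 := hpos x (Ioo_subset_Icc_self hx) y
      have h1 : HasDerivAt (fun y : ℝ => x ^ 2 + y ^ 2) (2 * y) y := by
        simpa using (hasDerivAt_pow 2 y).const_add (x ^ 2)
      have h2 := (hasDerivAt_id y).div h1 h0
      have h3 : (1 * (x ^ 2 + y ^ 2) - id y * (2 * y)) / (x ^ 2 + y ^ 2) ^ 2 =
          (x ^ 2 - y ^ 2) / (x ^ 2 + y ^ 2) ^ 2 := by
        simp only [id]; congr 1; ring
      rw [h3] at h2
      exact h2)
  rw [integral_add]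
  · rw [f1, f2, ← neg_add, ← integral_add]
    · rw [neg_eq_zero]
      rw [setIntegral_congr_fun hR (g := fun _ => (0:ℝ))]
      · simp
      · intro z hz
        simp only
        ring
    · exact integrableOn_bdd_mul hR hK hs hw.continuousOn
        ((cβ1'.integrableOn_compact hK).mono_set hs)
    · exact integrableOn_bdd_mul hR hK hs hw.continuousOn
        ((cβ2'.integrableOn_compact hK).mono_set hs)
  · exact (integrableOn_bdd_mul hR hK hs cβ1 hv1).congr
      (Eventually.of_forall fun z => mul_comm _ _)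
  · exact (integrableOn_bdd_mul hR hK hs cβ2 hv2).congr
      (Eventually.of_forall fun z => mul_comm _ _)

/-! ### matrices -/

/-- adjugate of a linear map of `ℝⁿ` -/
def adjL {n : ℕ} (A : E n →L[ℝ] E n) : E n →L[ℝ] E n :=
  Matrix.toEuclideanCLM (𝕜 := ℝ) ((Matrix.toEuclideanCLM (𝕜 := ℝ) (n := Fin n)).symm A).adjugate

lemma toMat_apply (A : E2 →L[ℝ] E2) (i j : Fin 2) :
    (Matrix.toEuclideanCLM (𝕜 := ℝ) (n := Fin 2)).symm A i j = A (ei j) i := by
  set M := (Matrix.toEuclideanCLM (𝕜 := ℝ) (n := Fin 2)).symm A with hM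
  have h1 : A = Matrix.toEuclideanCLM (𝕜 := ℝ) (n := Fin 2) M := by rw [hM]; simp
  rw [h1]
  have h2 : (Matrix.toEuclideanCLM (𝕜 := ℝ) (n := Fin 2) M (ei j)) i =
      (Matrix.mulVec M (WithLp.ofLp (ei j : E2))) i := by
    rw [← Matrix.ofLp_toEuclideanCLM]
  rw [h2]
  simp [ei]

lemma adj_apply_zero (A : E2 →L[ℝ] E2) (v : E2) :
    adjL A v 0 = A (ei 1) 1 * v 0 - A (ei 1) 0 * v 1 := by
  have h2 : adjL A v 0 =
      (Matrix.mulVec ((Matrix.toEuclideanCLM (𝕜 := ℝ) (n := Fin 2)).symm A).adjugate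
        (WithLp.ofLp v)) 0 := by
    rw [← Matrix.ofLp_toEuclideanCLM]; rfl
  rw [h2, Matrix.adjugate_fin_two]
  simp only [toMat_apply]
  simp [Matrix.mulVec, dotProduct, Fin.sum_univ_two]
  ring

lemma adj_apply_one (A : E2 →L[ℝ] E2) (v : E2) :
    adjL A v 1 = - A (ei 0) 1 * v 0 + A (ei 0) 0 * v 1 := by
  have h2 : adjL A v 1 =
      (Matrix.mulVec ((Matrix.toEuclideanCLM (𝕜 := ℝ) (n := Fin 2)).symm A).adjugate
        (WithLp.ofLp v)) 1 := by
    rw [← Matrix.ofLp_toEuclideanCLM]; rfl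
  rw [h2, Matrix.adjugate_fin_two]
  simp only [toMat_apply]
  simp [Matrix.mulVec, dotProduct, Fin.sum_univ_two]

lemma det_E2 (A : E2 →L[ℝ] E2) :
    A.det = A (ei 0) 0 * A (ei 1) 1 - A (ei 1) 0 * A (ei 0) 1 := by
  have h1 : A.det = (LinearMap.toMatrix (EuclideanSpace.basisFun (Fin 2) ℝ).toBasis
      (EuclideanSpace.basisFun (Fin 2) ℝ).toBasis (A : E2 →ₗ[ℝ] E2)).det := by
    rw [LinearMap.det_toMatrix]
  rw [h1, Matrix.det_fin_two]
  simp [LinearMap.toMatrix_apply]

/-! #### Part I -/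

structure FDist {n : ℕ} (Ω : Set (E n)) (f : E n → E n)
    (Df : E n → (E n →L[ℝ] E n)) : Prop where
  weak : WDiff Ω f Df
  jacobian_locInt : LocallyIntegrableOn (fun x => (Df x).det) Ω volume
  jacobian_nonneg : ∀ᵐ x ∂(volume.restrict Ω), 0 ≤ (Df x).det
  bound : ∃ K : E n → ℝ, Measurable K ∧ (∀ x, 1 ≤ K x) ∧
    ∀ᵐ x ∂(volume.restrict Ω), ‖Df x‖ ^ n ≤ K x * (Df x).det

def innerD {n : ℕ} (A : E n →L[ℝ] E n) : ℝ :=
  if 0 < A.det then ‖adjL A‖ ^ n / A.det ^ (n - 1) else 1

def energyD {n : ℕ} (p : ℝ) (Ω : Set (E n)) (Df : E n → (E n →L[ℝ] E n)) : ℝ≥0∞ :=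
  ∫⁻ x in Ω, ENNReal.ofReal (innerD (Df x) ^ p)

lemma normsq_E2 (v : E2) : ‖v‖ ^ 2 = v 0 ^ 2 + v 1 ^ 2 := by
  rw [EuclideanSpace.real_norm_sq_eq, Fin.sum_univ_two]

lemma adj_lower_one (A : E2 →L[ℝ] E2) :
    A (ei 0) 0 ^ 2 + A (ei 1) 0 ^ 2 ≤ ‖adjL A‖ ^ 2 := by
  have h1 := (adjL A).le_opNorm (ei 1)
  have h2 : ‖(ei 1 : E2)‖ = 1 := by simp
  rw [h2, mul_one] at h1
  have h3 : ‖adjL A (ei 1)‖ ^ 2 = A (ei 0) 0 ^ 2 + A (ei 1) 0 ^ 2 := by
    rw [normsq_E2, adj_apply_zero, adj_apply_one]; simp; ring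
  rw [← h3]
  exact pow_le_pow_left₀ (norm_nonneg _) h1 2

lemma adj_lower_zero (A : E2 →L[ℝ] E2) :
    A (ei 0) 1 ^ 2 + A (ei 1) 1 ^ 2 ≤ ‖adjL A‖ ^ 2 := by
  have h1 := (adjL A).le_opNorm (ei 0)
  have h2 : ‖(ei 0 : E2)‖ = 1 := by simp
  rw [h2, mul_one] at h1
  have h3 : ‖adjL A (ei 0)‖ ^ 2 = A (ei 0) 1 ^ 2 + A (ei 1) 1 ^ 2 := by
    rw [normsq_E2, adj_apply_zero, adj_apply_one]; simp; ring
  rw [← h3]
  exact pow_le_pow_left₀ (norm_nonneg _) h1 2

lemma innerDistortion_pos {A : E2 →L[ℝ] E2} (h : 0 < A.det) :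
    innerD A = ‖adjL A‖ ^ 2 / A.det := by
  rw [innerD, if_pos h]; simp

lemma one_le_innerDistortion (A : E2 →L[ℝ] E2) : 1 ≤ innerD A := by
  by_cases h : 0 < A.det
  · rw [innerDistortion_pos h, one_le_div h, det_E2]
    have h1 := adj_lower_one A
    have h0 := adj_lower_zero A
    nlinarith [sq_nonneg (A (ei 0) 0 - A (ei 1) 1), sq_nonneg (A (ei 1) 0 + A (ei 0) 1)]
  · rw [innerD, if_neg h]

lemma innerDistortion_ge {A : E2 →L[ℝ] E2} (h0 : 0 ≤ A.det) (h1 : A.det = 0 → A = 0)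
    {x y : ℝ} :
    2 * (A (ei 0) 0 * x + A (ei 1) 0 * y) - (x ^ 2 + y ^ 2) * A.det ≤ innerD A := by
  rcases h0.eq_or_lt with h | h
  · have hA := h1 h.symm
    rw [← h, hA]
    have := one_le_innerDistortion (0 : E2 →L[ℝ] E2)
    simp only [zero_apply, PiLp.zero_apply, zero_mul, add_zero, mul_zero,
      sub_zero]
    linarith
  · rw [innerDistortion_pos h, le_div_iff₀ h]
    have h2 := adj_lower_one A
    set J := A.det
    set a := A (ei 0) 0
    set b := A (ei 1) 0
    nlinarith [sq_nonneg (a - x * J), sq_nonneg (b - y * J)]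

lemma entry_le {A : E2 →L[ℝ] E2} (h0 : 0 ≤ A.det) (h1 : A.det = 0 → A = 0) (j : Fin 2) :
    |A (ei j) 0| ≤ innerD A + A.det := by
  rcases h0.eq_or_lt with h | h
  · have hA := h1 h.symm
    rw [← h, hA]
    have := one_le_innerDistortion (0 : E2 →L[ℝ] E2)
    simp only [zero_apply, PiLp.zero_apply, abs_zero]
    linarith
  · have h2 := adj_lower_one A
    have h3 : A (ei j) 0 ^ 2 ≤ innerD A * A.det := by
      rw [innerDistortion_pos h, div_mul_cancel₀ _ h.ne']
      fin_cases j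
      · exact le_trans (by simp only [Fin.zero_eta]; nlinarith [sq_nonneg (A (ei 1) 0)]) h2
      · exact le_trans (by simp only [Fin.mk_one]; nlinarith [sq_nonneg (A (ei 0) 0)]) h2
    have h4 := one_le_innerDistortion A
    apply abs_le_of_sq_le_sq _ (by linarith)
    nlinarith

/-- the critical weight -/
def kap (p t : ℝ) : ℝ := max 1 (t ^ (-(1 / (p - 1))))

lemma one_le_kap (p t : ℝ) : 1 ≤ kap p t := le_max_left _ _

lemma kap_pos (p t : ℝ) : 0 < kap p t := zero_lt_one.trans_le (one_le_kap p t)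

lemma kap_of_lt {p t : ℝ} (hp : 1 < p) (ht0 : 0 < t) (ht : t ≤ 1) :
    kap p t = t ^ (-(1 / (p - 1))) := by
  apply max_eq_right
  apply Real.one_le_rpow_of_pos_of_le_one_of_nonpos ht0 ht
  have : 0 < 1 / (p - 1) := by
    apply one_div_pos.2; linarith
  linarith

lemma kap_of_ge {p t : ℝ} (hp : 1 < p) (ht : 1 ≤ t) : kap p t = 1 := by
  apply max_eq_left
  apply Real.rpow_le_one_of_one_le_of_nonpos ht
  have : 0 < 1 / (p - 1) := by
    apply one_div_pos.2; linarith
  linarith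

lemma bernoulli {p K k : ℝ} (hp : 1 < p) (hK : 1 ≤ K) (hk : 1 ≤ k) :
    k ^ p + p * k ^ (p - 1) * (K - k) ≤ K ^ p := by
  have hk0 : 0 < k := by linarith
  have h1 := one_add_mul_self_le_rpow_one_add (s := K / k - 1) (by
    have : 0 ≤ K / k := by positivity
    linarith) hp.le
  have h2 : 1 + (K / k - 1) = K / k := by ring
  rw [h2, Real.div_rpow (by linarith) hk0.le] at h1
  have h3 : 0 < k ^ p := Real.rpow_pos_of_pos hk0 p
  have h4 : (1 + p * (K / k - 1)) * k ^ p ≤ K ^ p := by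
    calc _ ≤ K ^ p / k ^ p * k ^ p := by gcongr
      _ = K ^ p := by field_simp
  refine le_trans (le_of_eq ?_) h4
  rw [Real.rpow_sub_one hk0.ne']
  field_simp

/-- **the pointwise inequality** -/
lemma pointwise {p : ℝ} (hp : 1 < p) {A : E2 →L[ℝ] E2} (h0 : 0 ≤ A.det) (h1 : A.det = 0 → A = 0)
    {x y t : ℝ} (ht : t = x ^ 2 + y ^ 2) (ht0 : 0 < t) :
    kap p t ^ p + p * ((2 * (A (ei 0) 0 * x + A (ei 1) 0 * y) / t - A.det) - kap p t / t) ≤
      innerD A ^ p := by
  have hK1 := one_le_innerDistortion A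
  have hKX := innerDistortion_ge h0 h1 (x := x) (y := y)
  rw [← ht] at hKX
  set X := A (ei 0) 0 * x + A (ei 1) 0 * y
  set J := A.det
  set K := innerD A
  refine le_trans ?_ (bernoulli hp hK1 (one_le_kap p t))
  have hp0 : 0 < p := by linarith
  rw [mul_assoc]
  gcongr
  rcases le_total t 1 with h | h
  · have e1 : kap p t ^ (p - 1) = t⁻¹ := by
      rw [kap_of_lt hp ht0 h, ← Real.rpow_mul ht0.le]
      have : -(1 / (p - 1)) * (p - 1) = -1 := by
        have : p - 1 ≠ 0 := by linarith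
        field_simp
      rw [this, Real.rpow_neg_one]
    rw [e1]
    have e2 : 2 * X / t - J - kap p t / t = t⁻¹ * (2 * X - t * J - kap p t) := by
      field_simp
    rw [e2]
    gcongr
  · rw [kap_of_ge hp h, Real.one_rpow, one_mul]
    have e2 : 2 * X / t - J - 1 / t = t⁻¹ * (2 * X - t * J - 1) := by
      field_simp
    rw [e2]
    calc t⁻¹ * (2 * X - t * J - 1) ≤ t⁻¹ * (K - 1) := by gcongr
      _ ≤ 1 * (K - 1) := by
        exact mul_le_mul_of_nonneg_right (inv_le_one_of_one_le₀ h) (by linarith)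
      _ = K - 1 := one_mul _

/-! #### Part J -/

lemma clamp_continuous {a b c d : ℝ} (hab : a < b) (hcd : c < d) {f : E2 → E2}
    (hf : ContinuousOn f (CRect a b c d)) : Continuous (fun x => f (clamp a b c d x)) := by
  rw [← continuousOn_univ]
  exact hf.comp (continuous_clamp a b c d).continuousOn (fun x _ => clamp_mem hab.le hcd.le x)

lemma clamp_eqOn (a b c d : ℝ) (f : E2 → E2) :
    EqOn f (fun x => f (clamp a b c d x)) (Rect a b c d) := by
  intro x hx
  simp only
  rw [clamp_eq (Rect_subset a b c d hx)]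

lemma integrableOn_pl {a b c d : ℝ} {h : E2 → ℝ} (hh : IntegrableOn h (Rect a b c d)) :
    IntegrableOn (fun z => h (pl z)) (Ioo a b ×ˢ Ioo c d) :=
  ((mp_Rect a b c d).integrable_comp_emb emb_pl).2 hh

lemma flux_E2 {a b c d : ℝ} (ha : 0 < a) (hab : a < b) (hcd : c < d)
    {f g : E2 → E2} {Df Dg : E2 → E2 →L[ℝ] E2}
    (hf : ContinuousOn f (CRect a b c d)) (hg : ContinuousOn g (CRect a b c d))
    (hfw : WDiff (Rect a b c d) f Df) (hgw : WDiff (Rect a b c d) g Dg)
    (hfg : EqOn f g (CRect a b c d \ Rect a b c d))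
    (hfi : ∀ j, IntegrableOn (fun x => Df x (ei j) 0) (Rect a b c d))
    (hgi : ∀ j, IntegrableOn (fun x => Dg x (ei j) 0) (Rect a b c d)) :
    ∫ x in Rect a b c d, ((Df x (ei 0) 0 - Dg x (ei 0) 0) * (x 0 / (x 0 ^ 2 + x 1 ^ 2)) +
      (Df x (ei 1) 0 - Dg x (ei 1) 0) * (x 1 / (x 0 ^ 2 + x 1 ^ 2))) = 0 := by
  rw [integral_Rect]
  have hf1 := hfw.congr (measurableSet_Rect a b c d) (clamp_eqOn a b c d f)
  have hg1 := hgw.congr (measurableSet_Rect a b c d) (clamp_eqOn a b c d g)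
  have hfc := clamp_continuous hab hcd hf
  have hgc := clamp_continuous hab hcd hg
  have hfc0 : Continuous (fun z => f (clamp a b c d (pl z)) 0) :=
    (EuclideanSpace.proj 0 : E2 →L[ℝ] ℝ).continuous.comp (hfc.comp continuous_pl)
  have hgc0 : Continuous (fun z => g (clamp a b c d (pl z)) 0) :=
    (EuclideanSpace.proj 0 : E2 →L[ℝ] ℝ).continuous.comp (hgc.comp continuous_pl)
  exact flux_zero ha hab hcd
    (w := fun z => f (clamp a b c d (pl z)) 0 - g (clamp a b c d (pl z)) 0)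
    (v1 := fun z => ent Df 0 0 z - ent Dg 0 0 z) (v2 := fun z => ent Df 0 1 z - ent Dg 0 1 z)
    (hfc0.sub hgc0)
    (by
      intro z hz hz'
      have h1 : pl z ∈ CRect a b c d := by
        rw [← mem_preimage, preimage_CRect]; exact hz
      have h2 : pl z ∉ Rect a b c d := by
        rw [← mem_preimage, preimage_Rect]; exact hz'
      rw [clamp_eq h1, hfg ⟨h1, h2⟩, sub_self])
    ((integrableOn_pl (hfi 0)).sub (integrableOn_pl (hgi 0)))
    ((integrableOn_pl (hfi 1)).sub (integrableOn_pl (hgi 1)))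
    ((hf1.weakFst 0).sub (hg1.weakFst 0) hfc0 hgc0 (integrableOn_pl (hfi 0))
      (integrableOn_pl (hgi 0)))
    ((hf1.weakSnd 0).sub (hg1.weakSnd 0) hfc0 hgc0 (integrableOn_pl (hfi 1))
      (integrableOn_pl (hgi 1)))

lemma lintegral_ofReal_ge {α : Type*} [MeasurableSpace α] {μ : Measure α} {h : α → ℝ}
    (hh : Integrable h μ) : ENNReal.ofReal (∫ x, h x ∂μ) ≤ ∫⁻ x, ENNReal.ofReal (h x) ∂μ := by
  have h1 : ∫ x, h x ∂μ ≤ ∫ x, max (h x) 0 ∂μ :=
    integral_mono hh hh.pos_part (fun x => le_max_left _ _)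
  refine (ENNReal.ofReal_le_ofReal h1).trans ?_
  rw [ofReal_integral_eq_lintegral_ofReal hh.pos_part
    (Eventually.of_forall fun x => le_max_right _ _)]
  apply le_of_eq
  congr 1
  ext x
  rcases le_total (h x) 0 with h2 | h2
  · rw [max_eq_right h2, ENNReal.ofReal_zero, ENNReal.ofReal_of_nonpos h2]
  · rw [max_eq_left h2]

lemma aestronglyMeasurable_entry {a b c d : ℝ} {D : E2 → (E2 →L[ℝ] E2)}
    (hD : LocallyIntegrableOn D (Rect a b c d)) (i j : Fin 2) :
    AEStronglyMeasurable (fun x => D x (ei j) i) (volume.restrict (Rect a b c d)) := by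
  let L : (E2 →L[ℝ] E2) →L[ℝ] ℝ := (EuclideanSpace.proj i : E2 →L[ℝ] ℝ).comp
    (ContinuousLinearMap.apply ℝ E2 (ei j))
  exact L.continuous.comp_aestronglyMeasurable hD.aestronglyMeasurable

lemma minimality {p : ℝ} (hp : 1 < p) {a b c d : ℝ} (ha : 0 < a) (hab : a < b) (hcd : c < d)
    {g : E2 → E2} {Dg : E2 → E2 →L[ℝ] E2}
    (hg : ContinuousOn g (CRect a b c d))
    (hgw : WDiff (Rect a b c d) g Dg)
    (hgX : ∀ x ∈ Rect a b c d, 2 * (Dg x (ei 0) 0 * x 0 + Dg x (ei 1) 0 * x 1) /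
      (x 0 ^ 2 + x 1 ^ 2) - (Dg x).det = kap p (x 0 ^ 2 + x 1 ^ 2) / (x 0 ^ 2 + x 1 ^ 2))
    (hgi : ∀ j, IntegrableOn (fun x => Dg x (ei j) 0) (Rect a b c d))
    (hgJ : volume (g '' Rect a b c d) = ∫⁻ x in Rect a b c d, ENNReal.ofReal (Dg x).det)
    (hgJ0 : ∀ x ∈ Rect a b c d, 0 ≤ (Dg x).det)
    (hgJi : IntegrableOn (fun x => (Dg x).det) (Rect a b c d))
    {f : E2 → E2} {Df : E2 → E2 →L[ℝ] E2} (hf : ContinuousOn f (CRect a b c d))
    (hfinj : InjOn f (CRect a b c d)) (himg : f '' Rect a b c d = g '' Rect a b c d)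
    (hfg : EqOn f g (CRect a b c d \ Rect a b c d))
    (hfd : FDist (Rect a b c d) f Df) :
    ∫⁻ x in Rect a b c d, ENNReal.ofReal (kap p (x 0 ^ 2 + x 1 ^ 2) ^ p) ≤
      energyD p (Rect a b c d) Df := by
  set Ω := Rect a b c d with hΩ
  have hΩm : MeasurableSet Ω := measurableSet_Rect a b c d
  by_cases hfin : energyD p Ω Df = ⊤
  · rw [hfin]; exact le_top
  have hp0 : 0 < p := by linarith
  -- area inequality
  have hvol : volume (g '' Ω) ≠ ⊤ := by
    have h1 : g '' Ω ⊆ g '' (CRect a b c d) := image_mono (Rect_subset a b c d)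
    exact ((measure_mono h1).trans_lt ((isCompact_CRect a b c d).image_of_continuousOn
      hg).measure_lt_top).ne
  have harea : ∫⁻ x in Ω, ENNReal.ofReal |(Df x).det| ≤ volume (g '' Ω) := by
    rw [← himg]
    exact area_Rect hab hcd hf (hfinj.mono (Rect_subset a b c d)) hfd.weak
  have hJm : AEStronglyMeasurable (fun x => (Df x).det) (volume.restrict Ω) :=
    hfd.jacobian_locInt.aestronglyMeasurable
  have hJi : IntegrableOn (fun x => (Df x).det) Ω := by
    refine ⟨hJm, ?_⟩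
    rw [hasFiniteIntegral_iff_norm]
    simp only [Real.norm_eq_abs]
    exact harea.trans_lt hvol.lt_top
  have hJle : ∫ x in Ω, (Df x).det ≤ ∫ x in Ω, (Dg x).det := by
    rw [integral_eq_lintegral_of_nonneg_ae hfd.jacobian_nonneg hJm,
      integral_eq_lintegral_of_nonneg_ae _ hgJi.1]
    · apply ENNReal.toReal_mono
      · rw [← hgJ]; exact hvol
      · rw [← hgJ]
        refine le_trans (le_of_eq ?_) harea
        apply lintegral_congr_ae
        filter_upwards [hfd.jacobian_nonneg] with x hx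
        rw [abs_of_nonneg hx]
    · rw [Filter.EventuallyLE, ae_restrict_iff' hΩm]
      exact Eventually.of_forall hgJ0
  -- degenerate points
  have hdeg : ∀ᵐ x ∂(volume.restrict Ω), (Df x).det = 0 → Df x = 0 := by
    obtain ⟨K, -, -, hK⟩ := hfd.bound
    filter_upwards [hK] with x hx hdet
    rw [hdet, mul_zero] at hx
    have h1 : ‖Df x‖ ^ 2 = 0 := le_antisymm hx (by positivity)
    exact norm_eq_zero.1 (pow_eq_zero_iff (by norm_num) |>.1 h1)
  -- integrability of the gradient of the first component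
  have hfi : ∀ j, IntegrableOn (fun x => Df x (ei j) 0) Ω := by
    intro j
    refine ⟨aestronglyMeasurable_entry hfd.weak.locInt_differential 0 j, ?_⟩
    rw [hasFiniteIntegral_iff_norm]
    have h1 : ∫⁻ x in Ω, ENNReal.ofReal ‖Df x (ei j) 0‖ ≤
        ∫⁻ x in Ω, (ENNReal.ofReal (innerD (Df x) ^ p) +
          ENNReal.ofReal ‖(Df x).det‖) := by
      apply lintegral_mono_ae
      filter_upwards [hfd.jacobian_nonneg, hdeg] with x h0 h1
      rw [← ENNReal.ofReal_add (by
        have := one_le_innerDistortion (Df x)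
        positivity) (norm_nonneg _)]
      apply ENNReal.ofReal_le_ofReal
      rw [Real.norm_eq_abs, Real.norm_eq_abs, abs_of_nonneg h0]
      refine (entry_le h0 h1 j).trans ?_
      gcongr
      conv_lhs => rw [← Real.rpow_one (innerD (Df x))]
      exact Real.rpow_le_rpow_of_exponent_le (one_le_innerDistortion _) hp.le
    refine h1.trans_lt ?_
    rw [lintegral_add_right']
    · apply ENNReal.add_lt_top.2
      refine ⟨lt_top_iff_ne_top.2 hfin, ?_⟩
      have := hJi.2
      rwa [hasFiniteIntegral_iff_norm] at this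
    · exact hJm.norm.aemeasurable.ennreal_ofReal
  have hflux := flux_E2 ha hab hcd hf hg hfd.weak hgw hfg hfi hgi
  -- the linear functional
  set Δ : E2 → ℝ := fun x =>
    2 * ((Df x (ei 0) 0 - Dg x (ei 0) 0) * (x 0 / (x 0 ^ 2 + x 1 ^ 2)) +
      (Df x (ei 1) 0 - Dg x (ei 1) 0) * (x 1 / (x 0 ^ 2 + x 1 ^ 2))) -
      ((Df x).det - (Dg x).det) with hΔ
  have hcoord : ∀ i : Fin 2, Continuous (fun x : E2 => x i) := fun i =>
    (EuclideanSpace.proj i : E2 →L[ℝ] ℝ).continuous
  have hpos : ∀ x ∈ CRect a b c d, 0 < x 0 ^ 2 + x 1 ^ 2 := by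
    intro x hx
    have : 0 < x 0 := ha.trans_le hx.1.1
    positivity
  have hK : IsCompact (CRect a b c d) := isCompact_CRect a b c d
  have hbdd : ∀ (h v : E2 → ℝ), ContinuousOn h (CRect a b c d) → IntegrableOn v Ω →
      IntegrableOn (fun x => v x * h x) Ω := by
    intro h v hh hv
    obtain ⟨C, hC⟩ := hK.exists_bound_of_continuousOn hh
    have h1 := hv.bdd_mul (c := C) ((hh.mono (Rect_subset a b c d)).aestronglyMeasurable hΩm) (by
      rw [ae_restrict_iff' hΩm]
      exact Eventually.of_forall fun z hz => hC z (Rect_subset a b c d hz))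
    exact h1.congr (Eventually.of_forall fun z => mul_comm _ _)
  have hβ : ∀ i : Fin 2, ContinuousOn (fun x : E2 => x i / (x 0 ^ 2 + x 1 ^ 2))
      (CRect a b c d) := by
    intro i
    have h0 := hcoord 0
    have h1 := hcoord 1
    have h2 := hcoord i
    exact ContinuousOn.div (by fun_prop) (by fun_prop) (fun x hx => (hpos x hx).ne')
  have hI1 : IntegrableOn (fun x : E2 =>
      ((Df x (ei 0) 0 - Dg x (ei 0) 0) * (x 0 / (x 0 ^ 2 + x 1 ^ 2)) +
      (Df x (ei 1) 0 - Dg x (ei 1) 0) * (x 1 / (x 0 ^ 2 + x 1 ^ 2)))) Ω :=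
    (hbdd _ _ (hβ 0) ((hfi 0).sub (hgi 0))).add (hbdd _ _ (hβ 1) ((hfi 1).sub (hgi 1)))
  have hΔi : IntegrableOn Δ Ω := (hI1.const_mul 2).sub (hJi.sub hgJi)
  have hΔ0 : 0 ≤ ∫ x in Ω, Δ x := by
    have e1 : ∫ x in Ω, Δ x = 2 * (∫ x in Ω, ((Df x (ei 0) 0 - Dg x (ei 0) 0) *
        (x 0 / (x 0 ^ 2 + x 1 ^ 2)) +
      (Df x (ei 1) 0 - Dg x (ei 1) 0) * (x 1 / (x 0 ^ 2 + x 1 ^ 2)))) -
        ((∫ x in Ω, (Df x).det) - ∫ x in Ω, (Dg x).det) := by
      rw [← integral_const_mul, ← integral_sub hJi hgJi]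
      exact integral_sub (hI1.const_mul 2) (hJi.sub hgJi)
    rw [e1, hflux]
    linarith
  -- continuity and integrability of the weight
  have hkc : ContinuousOn (fun x : E2 => kap p (x 0 ^ 2 + x 1 ^ 2) ^ p) (CRect a b c d) := by
    have h0 := hcoord 0
    have h1 := hcoord 1
    apply ContinuousOn.rpow_const
    · apply ContinuousOn.sup continuousOn_const
      apply ContinuousOn.rpow_const (by fun_prop)
      intro x hx
      exact Or.inl (hpos x hx).ne'
    · intro x hx
      exact Or.inl (kap_pos _ _).ne'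
  have hki : IntegrableOn (fun x : E2 => kap p (x 0 ^ 2 + x 1 ^ 2) ^ p) Ω :=
    (hkc.integrableOn_compact hK).mono_set (Rect_subset a b c d)
  have hsum : IntegrableOn (fun x : E2 => kap p (x 0 ^ 2 + x 1 ^ 2) ^ p + p * Δ x) Ω :=
    hki.add (hΔi.const_mul p)
  calc ∫⁻ x in Ω, ENNReal.ofReal (kap p (x 0 ^ 2 + x 1 ^ 2) ^ p)
      = ENNReal.ofReal (∫ x in Ω, kap p (x 0 ^ 2 + x 1 ^ 2) ^ p) := by
        rw [ofReal_integral_eq_lintegral_ofReal hki]
        exact Eventually.of_forall fun x => Real.rpow_nonneg (kap_pos _ _).le _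
    _ ≤ ENNReal.ofReal (∫ x in Ω, (kap p (x 0 ^ 2 + x 1 ^ 2) ^ p + p * Δ x)) := by
        apply ENNReal.ofReal_le_ofReal
        rw [integral_add hki (hΔi.const_mul p), integral_const_mul]
        have := mul_nonneg hp0.le hΔ0
        linarith
    _ ≤ ∫⁻ x in Ω, ENNReal.ofReal (kap p (x 0 ^ 2 + x 1 ^ 2) ^ p + p * Δ x) :=
        lintegral_ofReal_ge hsum
    _ ≤ ∫⁻ x in Ω, ENNReal.ofReal (innerD (Df x) ^ p) := by
        apply lintegral_mono_ae
        filter_upwards [hfd.jacobian_nonneg, hdeg, ae_restrict_mem hΩm] with x h0 h1 hx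
        apply ENNReal.ofReal_le_ofReal
        have ht0 := hpos x (Rect_subset a b c d hx)
        have h2 := pointwise hp h0 h1 (x := x 0) (y := x 1) rfl ht0
        refine le_trans (le_of_eq ?_) h2
        rw [← hgX x hx]
        simp only [hΔ]
        field_simp
        ring

/-! #### Part K -/

lemma integrable_of_tsupport {n : ℕ} {K : Set (E n)} (hK : IsCompact K) {h : E n → ℝ}
    (hc : ContinuousOn h K) (h0 : ∀ x, x ∉ K → h x = 0) : Integrable h := by
  rw [← integrableOn_iff_integrable_of_support_subset (s := K)]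
  · exact hc.integrableOn_compact hK
  · intro x hx
    by_contra hcon
    exact hx (h0 x hcon)

/-- classical `C¹` maps are weakly differentiable -/
lemma wDiff_of_C1 {n : ℕ} {Ω : Set (E n)} (hΩ : IsOpen Ω) {g : E n → E n}
    {Dg : E n → (E n →L[ℝ] E n)} (hg : ∀ x ∈ Ω, HasFDerivAt g (Dg x) x)
    (hc : ContinuousOn Dg Ω) : WDiff Ω g Dg where
  locInt := by
    apply ContinuousOn.locallyIntegrableOn _ hΩ.measurableSet
    intro x hx
    exact (hg x hx).continuousAt.continuousWithinAt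
  locInt_differential := hc.locallyIntegrableOn hΩ.measurableSet
  weak := by
    intro φ hφ hφc hφs i j
    have hK : IsCompact (tsupport φ) := hφc
    have hgc : ContinuousOn g Ω := fun x hx => (hg x hx).continuousAt.continuousWithinAt
    have hgi : ContinuousOn (fun x => g x i) Ω :=
      (EuclideanSpace.proj i : E n →L[ℝ] ℝ).continuous.comp_continuousOn hgc
    have hDgi : ContinuousOn (fun x => Dg x (ei j) i) Ω :=
      (EuclideanSpace.proj i : E n →L[ℝ] ℝ).continuous.comp_continuousOn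
        (hc.clm_apply continuousOn_const)
    have hφ0 : ∀ x, x ∉ tsupport φ → φ x = 0 := fun x hx => image_eq_zero_of_notMem_tsupport hx
    have hφ1 : ∀ x, x ∉ tsupport φ → fderiv ℝ φ x = 0 := fun x hx =>
      image_eq_zero_of_notMem_tsupport (fun h => hx (tsupport_fderiv_subset ℝ h))
    have hφ'c : Continuous (fun x => fderiv ℝ φ x (ei j)) :=
      (hφ.continuous_fderiv (by simp)).clm_apply continuous_const
    have h1 := integral_bilinear_hasFDerivAt_right_eq_neg_left_of_integrable (μ := volume)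
      (f := φ) (f' := fun x => fderiv ℝ φ x) (g := fun x => g x i)
      (g' := fun x => (EuclideanSpace.proj i : E n →L[ℝ] ℝ).comp (Dg x)) (v := ei j)
      (B := ContinuousLinearMap.mul ℝ ℝ) ?_ ?_ ?_ ?_ ?_
    · simp only [ContinuousLinearMap.mul_apply', ContinuousLinearMap.comp_apply,
        PiLp.proj_apply] at h1
      rw [setIntegral_eq_integral_of_forall_compl_eq_zero,
        setIntegral_eq_integral_of_forall_compl_eq_zero]
      · rw [← neg_eq_iff_eq_neg, ← h1]
      · intro x hx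
        rw [hφ0 x (fun h => hx (hφs h)), zero_mul]
      · intro x hx
        rw [hφ1 x (fun h => hx (hφs h))]
        simp
    · apply integrable_of_tsupport hK
      · simp only [ContinuousLinearMap.mul_apply']
        exact hφ'c.continuousOn.mul (hgi.mono hφs)
      · intro x hx
        rw [hφ1 x hx]; simp
    · apply integrable_of_tsupport hK
      · simp only [ContinuousLinearMap.mul_apply']
        exact hφ.continuous.continuousOn.mul (hDgi.mono hφs)
      · intro x hx
        rw [hφ0 x hx]; simp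
    · apply integrable_of_tsupport hK
      · simp only [ContinuousLinearMap.mul_apply']
        exact hφ.continuous.continuousOn.mul (hgi.mono hφs)
      · intro x hx
        rw [hφ0 x hx]; simp
    · intro x _
      exact (hφ.differentiable (by simp) x).hasFDerivAt
    · intro x hx
      exact (EuclideanSpace.proj i : E n →L[ℝ] ℝ).hasFDerivAt.comp x (hg x (hφs hx))

/-- radial profile -/
def sig (p t : ℝ) : ℝ := ∫ s in (1:ℝ)..t, kap p s / (2 * s)

lemma kap_continuousOn (p : ℝ) : ContinuousOn (kap p) (Ioi 0) := by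
  apply ContinuousOn.sup continuousOn_const
  apply ContinuousOn.rpow_const continuousOn_id
  intro x hx
  exact Or.inl (ne_of_gt hx)

lemma kap_measurable (p : ℝ) : Measurable (kap p) :=
  measurable_const.max (measurable_id.pow_const _)

lemma sig_hasDerivAt (p : ℝ) {t : ℝ} (ht : 0 < t) : HasDerivAt (sig p) (kap p t / (2 * t)) t := by
  have hc : ContinuousOn (fun s => kap p s / (2 * s)) (Ioi 0) := by
    apply (kap_continuousOn p).div (by fun_prop)
    intro x hx
    have : (0:ℝ) < x := hx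
    positivity
  apply intervalIntegral.integral_hasDerivAt_right
  · apply (hc.mono _).intervalIntegrable
    intro x hx
    rw [mem_uIcc] at hx
    rcases hx with h | h
    · exact lt_of_lt_of_le one_pos h.1
    · exact lt_of_lt_of_le ht h.1
  · exact hc.stronglyMeasurableAtFilter isOpen_Ioi t ht
  · exact hc.continuousAt (Ioi_mem_nhds ht)

lemma sig_strictMonoOn (p : ℝ) : StrictMonoOn (sig p) (Ioi 0) := by
  apply strictMonoOn_of_deriv_pos (convex_Ioi 0)
  · intro x hx
    exact (sig_hasDerivAt p hx).continuousAt.continuousWithinAt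
  · intro x hx
    rw [interior_Ioi] at hx
    rw [(sig_hasDerivAt p hx).deriv]
    have : (0:ℝ) < x := hx
    have := kap_pos p x
    positivity

/-- the extremal map -/
def gmap (p : ℝ) (x : E2) : E2 := pl (sig p (x 0 ^ 2 + x 1 ^ 2), Real.arctan (x 1 / x 0))

/-- matrix of its differential -/
def gmat (p : ℝ) (x : E2) : Matrix (Fin 2) (Fin 2) ℝ :=
  !![kap p (x 0 ^ 2 + x 1 ^ 2) * x 0 / (x 0 ^ 2 + x 1 ^ 2),
      kap p (x 0 ^ 2 + x 1 ^ 2) * x 1 / (x 0 ^ 2 + x 1 ^ 2);
     -x 1 / (x 0 ^ 2 + x 1 ^ 2), x 0 / (x 0 ^ 2 + x 1 ^ 2)]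

/-- its differential -/
def gdif (p : ℝ) (x : E2) : E2 →L[ℝ] E2 := Matrix.toEuclideanCLM (𝕜 := ℝ) (gmat p x)

lemma clm_apply (M : Matrix (Fin 2) (Fin 2) ℝ) (v : E2) (i : Fin 2) :
    Matrix.toEuclideanCLM (𝕜 := ℝ) (n := Fin 2) M v i = M i 0 * v 0 + M i 1 * v 1 := by
  have h2 : Matrix.toEuclideanCLM (𝕜 := ℝ) (n := Fin 2) M v i =
      (Matrix.mulVec M (WithLp.ofLp v)) i := by
    rw [← Matrix.ofLp_toEuclideanCLM]
  rw [h2, Matrix.mulVec, dotProduct, Fin.sum_univ_two]

lemma gdif_zero (p : ℝ) (x v : E2) : gdif p x v 0 =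
    kap p (x 0 ^ 2 + x 1 ^ 2) * x 0 / (x 0 ^ 2 + x 1 ^ 2) * v 0 +
      kap p (x 0 ^ 2 + x 1 ^ 2) * x 1 / (x 0 ^ 2 + x 1 ^ 2) * v 1 := by
  rw [gdif, clm_apply]; simp [gmat]

lemma gdif_one (p : ℝ) (x v : E2) : gdif p x v 1 =
    -x 1 / (x 0 ^ 2 + x 1 ^ 2) * v 0 + x 0 / (x 0 ^ 2 + x 1 ^ 2) * v 1 := by
  rw [gdif, clm_apply]; simp [gmat]

lemma hasFDerivAt_coord (i : Fin 2) (x : E2) :
    HasFDerivAt (fun x : E2 => x i) (EuclideanSpace.proj i : E2 →L[ℝ] ℝ) x :=
  (EuclideanSpace.proj i : E2 →L[ℝ] ℝ).hasFDerivAt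

lemma gmap_hasFDerivAt (p : ℝ) {x : E2} (hx : 0 < x 0) : HasFDerivAt (gmap p) (gdif p x) x := by
  have ht : 0 < x 0 ^ 2 + x 1 ^ 2 := by positivity
  rw [← hasFDerivWithinAt_univ, hasFDerivWithinAt_euclidean]
  intro i
  rw [hasFDerivWithinAt_univ]
  have h0 := hasFDerivAt_coord 0 x
  have h1 := hasFDerivAt_coord 1 x
  fin_cases i
  · have h2 : HasFDerivAt (fun x : E2 => x 0 ^ 2 + x 1 ^ 2)
        ((2 * x 0) • (EuclideanSpace.proj 0 : E2 →L[ℝ] ℝ) +
          (2 * x 1) • (EuclideanSpace.proj 1 : E2 →L[ℝ] ℝ)) x := by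
      refine HasFDerivAt.congr_fderiv ((h0.pow 2).add (h1.pow 2)) ?_
      ext v
      simp
    have h3 := (sig_hasDerivAt p ht).comp_hasFDerivAt x h2
    have h4 : (PiLp.proj 2 (fun _ : Fin 2 => ℝ) 0 : E2 →L[ℝ] ℝ) ∘L gdif p x =
        (kap p (x 0 ^ 2 + x 1 ^ 2) / (2 * (x 0 ^ 2 + x 1 ^ 2))) •
        ((2 * x 0) • (EuclideanSpace.proj 0 : E2 →L[ℝ] ℝ) +
          (2 * x 1) • (EuclideanSpace.proj 1 : E2 →L[ℝ] ℝ)) := by
      ext v
      simp only [ContinuousLinearMap.comp_apply, PiLp.proj_apply, gdif_zero, smul_apply,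
        add_apply, smul_eq_mul]
      field_simp
    simp only [Fin.zero_eta]
    rw [h4]
    exact h3
  · have h2 : HasFDerivAt (fun x : E2 => x 1 / x 0)
        ((x 0 ^ 2)⁻¹ • (x 0 • (EuclideanSpace.proj 1 : E2 →L[ℝ] ℝ) -
          x 1 • (EuclideanSpace.proj 0 : E2 →L[ℝ] ℝ))) x := by
      have h5 := (hasDerivAt_inv hx.ne').comp_hasFDerivAt x h0
      have h6 := h1.mul h5
      have h7 : (fun x : E2 => x 1 / x 0) = (fun x : E2 => x 1) * (Inv.inv ∘ fun x : E2 => x 0) := by
        funext y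
        simp [div_eq_mul_inv]
      rw [h7]
      refine HasFDerivAt.congr_fderiv h6 ?_
      ext v
      simp only [Function.comp, add_apply, smul_apply, sub_apply, smul_eq_mul, PiLp.proj_apply]
      field_simp
      ring
    have h3 := (Real.hasDerivAt_arctan (x 1 / x 0)).comp_hasFDerivAt x h2
    have h4 : (PiLp.proj 2 (fun _ : Fin 2 => ℝ) 1 : E2 →L[ℝ] ℝ) ∘L gdif p x =
        (1 / (1 + (x 1 / x 0) ^ 2)) •
        ((x 0 ^ 2)⁻¹ • (x 0 • (EuclideanSpace.proj 1 : E2 →L[ℝ] ℝ) -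
          x 1 • (EuclideanSpace.proj 0 : E2 →L[ℝ] ℝ))) := by
      ext v
      simp only [ContinuousLinearMap.comp_apply, PiLp.proj_apply, gdif_one, smul_apply,
        sub_apply, smul_eq_mul]
      field_simp
      ring
    simp only [Fin.mk_one]
    rw [h4]
    exact h3

/-! #### Part L -/

lemma isHomeoOnto_of_compact {n : ℕ} {f : E n → E n} {A : Set (E n)} (hA : IsCompact A)
    (hf : ContinuousOn f A) (hinj : InjOn f A) : IsHomeoOnto f A (f '' A) := by
  refine ⟨hf, hinj.bijOn_image, ?_⟩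
  rw [continuousOn_iff_isClosed]
  intro t ht
  refine ⟨f '' (A ∩ t), ((hA.inter_right ht).image_of_continuousOn
    (hf.mono inter_subset_left)).isClosed, ?_⟩
  ext y
  constructor
  · rintro ⟨h1, x, hx, rfl⟩
    have h2 : Function.invFunOn f A (f x) = x := hinj.leftInvOn_invFunOn hx
    rw [mem_preimage, h2] at h1
    exact ⟨⟨x, ⟨hx, h1⟩, rfl⟩, ⟨x, hx, rfl⟩⟩
  · rintro ⟨⟨x, ⟨hx, hxt⟩, rfl⟩, -⟩
    have h2 : Function.invFunOn f A (f x) = x := hinj.leftInvOn_invFunOn hx
    refine ⟨?_, ⟨x, hx, rfl⟩⟩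
    rw [mem_preimage, h2]; exact hxt

/-- right half plane -/
def RH : Set E2 := {x | 0 < x 0}

lemma coord_continuous (i : Fin 2) : Continuous (fun x : E2 => x i) :=
  (EuclideanSpace.proj i : E2 →L[ℝ] ℝ).continuous

lemma tpos {x : E2} (hx : x ∈ RH) : 0 < x 0 ^ 2 + x 1 ^ 2 := by
  have : 0 < x 0 := hx
  positivity

lemma kap_comp_continuousOn (p : ℝ) :
    ContinuousOn (fun x : E2 => kap p (x 0 ^ 2 + x 1 ^ 2)) RH := by
  have h0 := coord_continuous 0
  have h1 := coord_continuous 1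
  exact (kap_continuousOn p).comp (by fun_prop) (fun x hx => tpos hx)

lemma gdif_continuousOn (p : ℝ) : ContinuousOn (gdif p) RH := by
  have h0 := coord_continuous 0
  have h1 := coord_continuous 1
  have hk := kap_comp_continuousOn p
  rw [continuousOn_clm_apply]
  intro v
  have e : ∀ x : E2, gdif p x v = pl (gdif p x v 0, gdif p x v 1) := by
    intro x
    ext i; fin_cases i <;> simp
  rw [show (fun x => gdif p x v) = fun x => pl (gdif p x v 0, gdif p x v 1) from funext e]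
  apply continuous_pl.comp_continuousOn
  simp only [gdif_zero, gdif_one]
  apply ContinuousOn.prodMk
  · apply ContinuousOn.add
    · apply ContinuousOn.mul _ continuousOn_const
      exact ContinuousOn.div (hk.mul (by fun_prop)) (by fun_prop) (fun x hx => (tpos hx).ne')
    · apply ContinuousOn.mul _ continuousOn_const
      exact ContinuousOn.div (hk.mul (by fun_prop)) (by fun_prop) (fun x hx => (tpos hx).ne')
  · apply ContinuousOn.add
    · apply ContinuousOn.mul _ continuousOn_const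
      exact ContinuousOn.div (by fun_prop) (by fun_prop) (fun x hx => (tpos hx).ne')
    · apply ContinuousOn.mul _ continuousOn_const
      exact ContinuousOn.div (by fun_prop) (by fun_prop) (fun x hx => (tpos hx).ne')

lemma gdif_00 (p : ℝ) (x : E2) : gdif p x (ei 0) 0 =
    kap p (x 0 ^ 2 + x 1 ^ 2) * x 0 / (x 0 ^ 2 + x 1 ^ 2) := by
  rw [gdif_zero]; simp

lemma gdif_01 (p : ℝ) (x : E2) : gdif p x (ei 1) 0 =
    kap p (x 0 ^ 2 + x 1 ^ 2) * x 1 / (x 0 ^ 2 + x 1 ^ 2) := by
  rw [gdif_zero]; simp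

lemma gdif_10 (p : ℝ) (x : E2) : gdif p x (ei 0) 1 = -x 1 / (x 0 ^ 2 + x 1 ^ 2) := by
  rw [gdif_one]; simp

lemma gdif_11 (p : ℝ) (x : E2) : gdif p x (ei 1) 1 = x 0 / (x 0 ^ 2 + x 1 ^ 2) := by
  rw [gdif_one]; simp

lemma gdif_det (p : ℝ) {x : E2} (hx : x ∈ RH) :
    (gdif p x).det = kap p (x 0 ^ 2 + x 1 ^ 2) / (x 0 ^ 2 + x 1 ^ 2) := by
  rw [det_E2, gdif_00, gdif_01, gdif_10, gdif_11]
  have := tpos hx
  field_simp
  ring

lemma gdif_det_pos (p : ℝ) {x : E2} (hx : x ∈ RH) : 0 < (gdif p x).det := by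
  rw [gdif_det p hx]
  exact div_pos (kap_pos _ _) (tpos hx)

lemma gdif_adj_normsq (p : ℝ) {x : E2} (hx : x ∈ RH) :
    ‖adjL (gdif p x)‖ ^ 2 = kap p (x 0 ^ 2 + x 1 ^ 2) ^ 2 / (x 0 ^ 2 + x 1 ^ 2) := by
  have ht := tpos hx
  have hk := one_le_kap p (x 0 ^ 2 + x 1 ^ 2)
  apply le_antisymm
  · have h1 : ‖adjL (gdif p x)‖ ≤ √(kap p (x 0 ^ 2 + x 1 ^ 2) ^ 2 / (x 0 ^ 2 + x 1 ^ 2)) := by
      apply ContinuousLinearMap.opNorm_le_bound _ (Real.sqrt_nonneg _)
      intro v
      rw [← Real.sqrt_sq (norm_nonneg v), ← Real.sqrt_mul (by positivity)]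
      apply Real.le_sqrt_of_sq_le
      rw [normsq_E2, normsq_E2, adj_apply_zero, adj_apply_one, gdif_00, gdif_01, gdif_10, gdif_11]
      set t := x 0 ^ 2 + x 1 ^ 2 with htd
      set k := kap p t
      have h2 : (x 0 / t * v 0 - k * x 1 / t * v 1) ^ 2 +
          (-(-x 1 / t) * v 0 + k * x 0 / t * v 1) ^ 2 =
          ((x 0 ^ 2 + x 1 ^ 2) * (v 0 ^ 2 + k ^ 2 * v 1 ^ 2)) / t ^ 2 := by
        field_simp; ring
      rw [h2, ← htd]
      have h3 : t * (v 0 ^ 2 + k ^ 2 * v 1 ^ 2) / t ^ 2 = (v 0 ^ 2 + k ^ 2 * v 1 ^ 2) / t := by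
        field_simp
      rw [h3, div_mul_eq_mul_div]
      gcongr
      nlinarith [sq_nonneg (v 0), sq_nonneg (v 1), mul_nonneg (sub_nonneg.2 hk)
        (sq_nonneg (v 0)), mul_nonneg (mul_nonneg (sub_nonneg.2 hk) (by linarith : 0 ≤ k))
        (sq_nonneg (v 0))]
    calc ‖adjL (gdif p x)‖ ^ 2 ≤
          √(kap p (x 0 ^ 2 + x 1 ^ 2) ^ 2 / (x 0 ^ 2 + x 1 ^ 2)) ^ 2 := by gcongr
      _ = _ := Real.sq_sqrt (by positivity)
  · refine le_trans (le_of_eq ?_) (adj_lower_one (gdif p x))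
    rw [gdif_00, gdif_01]
    field_simp

lemma gdif_innerDistortion (p : ℝ) {x : E2} (hx : x ∈ RH) :
    innerD (gdif p x) = kap p (x 0 ^ 2 + x 1 ^ 2) := by
  rw [innerDistortion_pos (gdif_det_pos p hx), gdif_adj_normsq p hx, gdif_det p hx]
  have ht := tpos hx
  have hk := kap_pos p (x 0 ^ 2 + x 1 ^ 2)
  field_simp

lemma gdif_normsq_le (p : ℝ) {x : E2} (hx : x ∈ RH) :
    ‖gdif p x‖ ^ 2 ≤ kap p (x 0 ^ 2 + x 1 ^ 2) * (gdif p x).det := by
  have ht := tpos hx
  have hk := one_le_kap p (x 0 ^ 2 + x 1 ^ 2)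
  rw [gdif_det p hx]
  have h1 : ‖gdif p x‖ ≤ √(kap p (x 0 ^ 2 + x 1 ^ 2) ^ 2 / (x 0 ^ 2 + x 1 ^ 2)) := by
    apply ContinuousLinearMap.opNorm_le_bound _ (Real.sqrt_nonneg _)
    intro v
    rw [← Real.sqrt_sq (norm_nonneg v), ← Real.sqrt_mul (by positivity)]
    apply Real.le_sqrt_of_sq_le
    rw [normsq_E2, normsq_E2, gdif_zero, gdif_one]
    set t := x 0 ^ 2 + x 1 ^ 2 with htd
    set k := kap p t
    have h2 : (k * x 0 / t * v 0 + k * x 1 / t * v 1) ^ 2 +
        (-x 1 / t * v 0 + x 0 / t * v 1) ^ 2 =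
        (k ^ 2 * (x 0 * v 0 + x 1 * v 1) ^ 2 + (x 0 * v 1 - x 1 * v 0) ^ 2) / t ^ 2 := by
      field_simp; ring
    have h3 : k ^ 2 / t * (v 0 ^ 2 + v 1 ^ 2) =
        (k ^ 2 * ((x 0 ^ 2 + x 1 ^ 2) * (v 0 ^ 2 + v 1 ^ 2))) / t ^ 2 := by
      rw [← htd]; field_simp
    rw [h2, h3]
    gcongr
    have h4 : (x 0 ^ 2 + x 1 ^ 2) * (v 0 ^ 2 + v 1 ^ 2) =
      (x 0 * v 0 + x 1 * v 1) ^ 2 + (x 0 * v 1 - x 1 * v 0) ^ 2 := by ring
    rw [h4]
    have h5 : 1 ≤ k ^ 2 := by nlinarith
    nlinarith [sq_nonneg (x 0 * v 1 - x 1 * v 0)]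
  calc ‖gdif p x‖ ^ 2 ≤ √(kap p (x 0 ^ 2 + x 1 ^ 2) ^ 2 / (x 0 ^ 2 + x 1 ^ 2)) ^ 2 := by gcongr
    _ = kap p (x 0 ^ 2 + x 1 ^ 2) ^ 2 / (x 0 ^ 2 + x 1 ^ 2) := Real.sq_sqrt (by positivity)
    _ = _ := by ring

lemma gmap_injOn (p : ℝ) : InjOn (gmap p) RH := by
  intro x hx y hy h
  have hx0 : 0 < x 0 := hx
  have hy0 : 0 < y 0 := hy
  have h0 : gmap p x 0 = gmap p y 0 := by rw [h]
  have h1 : gmap p x 1 = gmap p y 1 := by rw [h]
  simp only [gmap, pl_zero, pl_one] at h0 h1
  have h2 : x 0 ^ 2 + x 1 ^ 2 = y 0 ^ 2 + y 1 ^ 2 :=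
    (sig_strictMonoOn p).injOn (tpos hx) (tpos hy) h0
  have h3 : x 1 / x 0 = y 1 / y 0 := Real.arctan_injective h1
  have h4 : x 1 = y 1 / y 0 * x 0 := by rw [← h3]; field_simp
  have h5 : y 1 = y 1 / y 0 * y 0 := by field_simp
  set m := y 1 / y 0
  rw [h4, h5] at h2
  have h6 : x 0 ^ 2 = y 0 ^ 2 := by
    have : x 0 ^ 2 * (1 + m ^ 2) = y 0 ^ 2 * (1 + m ^ 2) := by nlinarith
    exact mul_right_cancel₀ (by positivity) this
  have h7 : x 0 = y 0 := by
    have := abs_eq_abs.2 (sq_eq_sq_iff_eq_or_eq_neg.1 h6)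
    rwa [abs_of_pos hx0, abs_of_pos hy0] at this
  ext i; fin_cases i
  · exact h7
  · change x 1 = y 1
    rw [h4, h5, h7]

/-! #### Part M -/

lemma Rect_sub_RH {a b c d : ℝ} (ha : 0 < a) : CRect a b c d ⊆ RH :=
  fun _ hx => ha.trans_le hx.1.1

lemma gmap_continuousOn (p : ℝ) : ContinuousOn (gmap p) RH :=
  fun _ hx => (gmap_hasFDerivAt p hx).continuousAt.continuousWithinAt

lemma gmap_weak (p : ℝ) {a b c d : ℝ} (ha : 0 < a) :
    WDiff (Rect a b c d) (gmap p) (gdif p) := by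
  apply wDiff_of_C1 (isOpen_Rect a b c d)
  · intro x hx
    exact gmap_hasFDerivAt p (Rect_sub_RH ha (Rect_subset a b c d hx))
  · exact (gdif_continuousOn p).mono ((Rect_subset a b c d).trans (Rect_sub_RH ha))

/-! translation between matrices and linear maps -/

/-- the linear map of a matrix -/
def toL (M : Mat 2) : E2 →L[ℝ] E2 := Matrix.toEuclideanCLM (𝕜 := ℝ) M

lemma toL_entry (M : Mat 2) (i j : Fin 2) : toL M (ei j) i = M i j := by
  rw [← toMat_apply]
  simp [toL]

lemma toL_det (M : Mat 2) : (toL M).det = M.det := by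
  rw [det_E2, toL_entry, toL_entry, toL_entry, toL_entry, Matrix.det_fin_two]

lemma toL_norm (M : Mat 2) : ‖toL M‖ = opNorm M := rfl

lemma toL_adj (M : Mat 2) : ‖adjL (toL M)‖ = opNorm M.adjugate := by
  rw [adjL, toL]
  simp only [StarAlgEquiv.symm_apply_apply]
  rfl

lemma innerD_toL (M : Mat 2) : innerD (toL M) = innerDistortion M := by
  rw [innerD, innerDistortion, toL_det, toL_adj]

lemma energyD_toL (p : ℝ) (Ω : Set E2) (M : E2 → Mat 2) :
    energyD p Ω (fun x => toL (M x)) = energy p Ω M := by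
  simp only [energyD, energy, innerD_toL]

lemma locInt_add {X F : Type*} [MeasurableSpace X] [TopologicalSpace X] [NormedAddCommGroup F]
    {μ : Measure X} {Ω : Set X} {f g : X → F} (hF : LocallyIntegrableOn f Ω μ)
    (hG : LocallyIntegrableOn g Ω μ) : LocallyIntegrableOn (fun x => f x + g x) Ω μ := hF.add hG

lemma locInt_smul_const {X F : Type*} [MeasurableSpace X] [TopologicalSpace X]
    [NormedAddCommGroup F] [NormedSpace ℝ F] {μ : Measure X} {Ω : Set X} {s : X → ℝ}
    (hs : LocallyIntegrableOn s Ω μ) (A : F) : LocallyIntegrableOn (fun x => s x • A) Ω μ := by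
  intro x hx
  obtain ⟨t, ht, h⟩ := hs x hx
  exact ⟨t, ht, h.smul_const A⟩

lemma locInt_four {X F : Type*} [MeasurableSpace X] [TopologicalSpace X] [NormedAddCommGroup F]
    [NormedSpace ℝ F] {μ : Measure X} {Ω : Set X} {s1 s2 s3 s4 : X → ℝ}
    (h1 : LocallyIntegrableOn s1 Ω μ) (h2 : LocallyIntegrableOn s2 Ω μ)
    (h3 : LocallyIntegrableOn s3 Ω μ) (h4 : LocallyIntegrableOn s4 Ω μ) (A B C D : F) :
    LocallyIntegrableOn (fun x => s1 x • A + s2 x • B + s3 x • C + s4 x • D) Ω μ :=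
  locInt_add (locInt_add (locInt_add (locInt_smul_const h1 A) (locInt_smul_const h2 B))
    (locInt_smul_const h3 C)) (locInt_smul_const h4 D)

lemma toL_eq (M : Mat 2) : toL M = M 0 0 • toL (Matrix.single 0 0 1) +
    M 0 1 • toL (Matrix.single 0 1 1) + M 1 0 • toL (Matrix.single 1 0 1) +
    M 1 1 • toL (Matrix.single 1 1 1) := by
  have h : M = M 0 0 • Matrix.single 0 0 1 + M 0 1 • Matrix.single 0 1 1 +
      M 1 0 • Matrix.single 1 0 1 + M 1 1 • Matrix.single 1 1 1 := by
    ext i j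
    fin_cases i <;> fin_cases j <;> simp [Matrix.single]
  conv_lhs => rw [h]
  simp only [toL, map_add, map_smul]

lemma toL_locInt {Ω : Set E2} {M : E2 → Mat 2}
    (h : ∀ i j : Fin 2, LocallyIntegrableOn (fun x => M x i j) Ω volume) :
    LocallyIntegrableOn (fun x => toL (M x)) Ω := by
  have e : (fun x => toL (M x)) = fun x => M x 0 0 • toL (Matrix.single 0 0 1) +
    M x 0 1 • toL (Matrix.single 0 1 1) + M x 1 0 • toL (Matrix.single 1 0 1) +
    M x 1 1 • toL (Matrix.single 1 1 1) := funext fun x => toL_eq (M x)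
  rw [e]
  exact locInt_four (h 0 0) (h 0 1) (h 1 0) (h 1 1) _ _ _ _

lemma FiniteDistortion.toFDist {Ω : Set E2} {f : E2 → E2} {M : E2 → Mat 2}
    (h : FiniteDistortion Ω f M) (hf : LocallyIntegrableOn f Ω) :
    FDist Ω f (fun x => toL (M x)) where
  weak :=
    { locInt := hf
      locInt_differential := toL_locInt h.weak.locInt_differential
      weak := by
        intro φ h1 h2 h3 i j
        simp only [toL_entry]
        exact h.weak.weak φ ⟨h1, h2, h3⟩ i j }
  jacobian_locInt := by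
    simp only [toL_det]; exact h.jacobian_locInt
  jacobian_nonneg := by
    simp only [toL_det]; exact h.jacobian_nonneg
  bound := by
    simp only [toL_det, toL_norm]; exact h.bound

lemma gdif_eq (p : ℝ) (x : E2) : gdif p x = toL (gmat p x) := rfl

lemma gmap_finiteDistortion (p : ℝ) {a b c d : ℝ} (ha : 0 < a) :
    FiniteDistortion (Rect a b c d) (gmap p) (gmat p) where
  weak :=
    { locInt := by
        intro i
        apply ContinuousOn.locallyIntegrableOn _ (measurableSet_Rect a b c d)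
        exact (coord_continuous i).comp_continuousOn ((gmap_continuousOn p).mono
          ((Rect_subset a b c d).trans (Rect_sub_RH ha)))
      locInt_differential := by
        intro i j
        apply ContinuousOn.locallyIntegrableOn _ (measurableSet_Rect a b c d)
        have h1 : ContinuousOn (fun x => gdif p x (ei j) i) (Rect a b c d) :=
          (coord_continuous i).comp_continuousOn (((gdif_continuousOn p).mono
          ((Rect_subset a b c d).trans (Rect_sub_RH ha))).clm_apply continuousOn_const)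
        simp only [gdif_eq, toL_entry] at h1
        exact h1
      weak := by
        intro φ hφ i j
        have h1 := (gmap_weak p (b := b) (c := c) (d := d) ha).weak φ hφ.1 hφ.2.1 hφ.2.2 i j
        simp only [gdif_eq, toL_entry] at h1
        exact h1 }
  jacobian_locInt := by
    apply ContinuousOn.locallyIntegrableOn _ (measurableSet_Rect a b c d)
    have h1 : ContinuousOn (fun x => (gdif p x).det) (Rect a b c d) :=
      ContinuousLinearMap.continuous_det.comp_continuousOn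
      ((gdif_continuousOn p).mono ((Rect_subset a b c d).trans (Rect_sub_RH ha)))
    simp only [gdif_eq, toL_det] at h1
    exact h1
  jacobian_nonneg := by
    rw [ae_restrict_iff' (measurableSet_Rect a b c d)]
    refine Eventually.of_forall fun x hx => ?_
    have := (gdif_det_pos p (Rect_sub_RH ha (Rect_subset a b c d hx))).le
    rwa [gdif_eq, toL_det] at this
  bound := by
    refine ⟨fun x => kap p (x 0 ^ 2 + x 1 ^ 2), ?_, fun x => one_le_kap _ _, ?_⟩
    · apply (kap_measurable p).comp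
      have h0 := coord_continuous 0
      have h1 := coord_continuous 1
      apply Continuous.measurable
      fun_prop
    · rw [ae_restrict_iff' (measurableSet_Rect a b c d)]
      refine Eventually.of_forall fun x hx => ?_
      have := gdif_normsq_le p (Rect_sub_RH ha (Rect_subset a b c d hx))
      rwa [gdif_eq, toL_det, toL_norm] at this

lemma gmap_memLp (p : ℝ) {a b c d : ℝ} (ha : 0 < a) :
    MemLp (fun x => innerDistortion (gmat p x)) (ENNReal.ofReal p)
      (volume.restrict (Rect a b c d)) := by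
  have hsub : CRect a b c d ⊆ RH := Rect_sub_RH ha
  have hc : ContinuousOn (fun x => innerDistortion (gmat p x)) (CRect a b c d) := by
    apply ((kap_comp_continuousOn p).mono hsub).congr
    intro x hx
    have := gdif_innerDistortion p (hsub hx)
    rwa [gdif_eq, innerD_toL] at this
  obtain ⟨C, hC⟩ := (isCompact_CRect a b c d).exists_bound_of_continuousOn hc
  have : IsFiniteMeasure (volume.restrict (Rect a b c d)) :=
    ⟨by rw [Measure.restrict_apply_univ]; exact (volume_Rect_ne_top a b c d).lt_top⟩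
  apply MemLp.of_bound ((hc.mono (Rect_subset a b c d)).aestronglyMeasurable
    (measurableSet_Rect a b c d)) C
  rw [ae_restrict_iff' (measurableSet_Rect a b c d)]
  exact Eventually.of_forall fun x hx => hC x (Rect_subset a b c d hx)

lemma closure_image_eq {a b c d : ℝ} (hab : a < b) (hcd : c < d) {g : E2 → E2}
    (hg : ContinuousOn g (CRect a b c d)) :
    closure (g '' Rect a b c d) = g '' CRect a b c d := by
  apply Subset.antisymm
  · apply closure_minimal (image_mono (Rect_subset a b c d))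
    exact ((isCompact_CRect a b c d).image_of_continuousOn hg).isClosed
  · have h1 := closure_Rect hab hcd
    rw [← h1]
    apply ContinuousOn.image_closure
    rw [h1]; exact hg

lemma gmap_homeo (p : ℝ) {a b c d : ℝ} (ha : 0 < a) (hab : a < b) (hcd : c < d) :
    IsHomeoOnto (gmap p) (closure (Rect a b c d)) (closure (gmap p '' Rect a b c d)) := by
  have hsub : CRect a b c d ⊆ RH := Rect_sub_RH ha
  rw [closure_Rect hab hcd, closure_image_eq hab hcd ((gmap_continuousOn p).mono hsub)]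
  exact isHomeoOnto_of_compact (isCompact_CRect a b c d) ((gmap_continuousOn p).mono hsub)
    ((gmap_injOn p).mono hsub)

lemma image_eq_of_boundary {a b c d : ℝ} (hab : a < b) (hcd : c < d) {f g : E2 → E2}
    (hf : BijOn f (closure (Rect a b c d)) (closure (g '' Rect a b c d)))
    (hg : ContinuousOn g (CRect a b c d)) (hginj : InjOn g (CRect a b c d))
    (hfg : EqOn f g (frontier (Rect a b c d))) :
    f '' Rect a b c d = g '' Rect a b c d := by
  rw [closure_image_eq hab hcd hg, closure_Rect hab hcd] at hf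
  rw [frontier_Rect hab hcd] at hfg
  have h1 : Rect a b c d = CRect a b c d \ (CRect a b c d \ Rect a b c d) := by
    rw [sdiff_sdiff_cancel_left (Rect_subset a b c d)]
  have h2 : f '' Rect a b c d = f '' CRect a b c d \ f '' (CRect a b c d \ Rect a b c d) := by
    conv_lhs => rw [h1]
    exact hf.injOn.image_sdiff_subset sdiff_subset
  have h3 : g '' Rect a b c d = g '' CRect a b c d \ g '' (CRect a b c d \ Rect a b c d) := by
    conv_lhs => rw [h1]
    exact hginj.image_sdiff_subset sdiff_subset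
  rw [h2, h3, hf.image_eq, hfg.image_eq]

lemma gmap_minimizer {p : ℝ} (hp : 1 < p) {a b c d : ℝ} (ha : 0 < a) (hab : a < b)
    (hcd : c < d) : IsMinimizer p (Rect a b c d) (gmap p) (gmap p) (gmat p) := by
  have hsub : CRect a b c d ⊆ RH := Rect_sub_RH ha
  have hsub' : Rect a b c d ⊆ RH := (Rect_subset a b c d).trans hsub
  have hRm := measurableSet_Rect a b c d
  have hK := isCompact_CRect a b c d
  refine ⟨⟨gmap_homeo p ha hab hcd, gmap_finiteDistortion p ha, fun _ _ => rfl⟩, ?_⟩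
  intro h Dh hadm
  have e1 : energy p (Rect a b c d) (gmat p) =
      ∫⁻ x in Rect a b c d, ENNReal.ofReal (kap p (x 0 ^ 2 + x 1 ^ 2) ^ p) := by
    rw [← energyD_toL]
    apply setLIntegral_congr_fun hRm
    intro x hx
    simp only
    rw [← gdif_eq, gdif_innerDistortion p (hsub' hx)]
  rw [e1]
  have hhc : ContinuousOn h (CRect a b c d) := by
    have := hadm.homeo.1
    rwa [closure_Rect hab hcd] at this
  have hhinj : InjOn h (CRect a b c d) := by
    have := hadm.homeo.2.1.injOn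
    rwa [closure_Rect hab hcd] at this
  have hDc : ContinuousOn (gdif p) (CRect a b c d) := (gdif_continuousOn p).mono hsub
  rw [← energyD_toL]
  apply minimality hp ha hab hcd ((gmap_continuousOn p).mono hsub) (gmap_weak p ha) _ _ _ _ _
    hhc hhinj _ _ (hadm.finiteDistortion.toFDist
      ((hhc.mono (Rect_subset a b c d)).locallyIntegrableOn hRm))
  · intro x hx
    rw [gdif_00, gdif_01, gdif_det p (hsub' hx)]
    have := tpos (hsub' hx)
    field_simp
    ring
  · intro j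
    have h1 : ContinuousOn (fun x => gdif p x (ei j) 0) (CRect a b c d) :=
      (coord_continuous 0).comp_continuousOn (hDc.clm_apply continuousOn_const)
    exact (h1.integrableOn_compact hK).mono_set (Rect_subset a b c d)
  · rw [← lintegral_abs_det_fderiv_eq_addHaar_image volume hRm
      (fun x hx => (gmap_hasFDerivAt p (hsub' hx)).hasFDerivWithinAt)
      ((gmap_injOn p).mono hsub')]
    apply setLIntegral_congr_fun hRm
    intro x hx
    simp only
    rw [abs_of_pos (gdif_det_pos p (hsub' hx))]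
  · intro x hx
    exact (gdif_det_pos p (hsub' hx)).le
  · have h1 : ContinuousOn (fun x => (gdif p x).det) (CRect a b c d) :=
      ContinuousLinearMap.continuous_det.comp_continuousOn hDc
    exact (h1.integrableOn_compact hK).mono_set (Rect_subset a b c d)
  · exact image_eq_of_boundary hab hcd hadm.homeo.2.1 ((gmap_continuousOn p).mono hsub)
      ((gmap_injOn p).mono hsub) hadm.boundary
  · have := hadm.boundary
    rwa [frontier_Rect hab hcd] at this

lemma gmap_not_C2 {p : ℝ} (hp : 1 < p) :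
    ¬ ContDiffOn ℝ 2 (gmap p) (Rect (1 / 2) (3 / 2) (-1 / 2) (1 / 2)) := by
  intro hC
  have hcurve : ContDiff ℝ 2 (fun r : ℝ => pl (r, 0)) := by
    rw [contDiff_euclidean]
    intro i
    fin_cases i
    · exact contDiff_id
    · exact contDiff_const
  have hmaps : MapsTo (fun r : ℝ => pl (r, 0)) (Ioo (1 / 2 : ℝ) (3 / 2))
      (Rect (1 / 2) (3 / 2) (-1 / 2) (1 / 2)) := by
    intro r hr
    refine ⟨hr, ?_⟩
    change (0:ℝ) ∈ Ioo (-1 / 2 : ℝ) (1 / 2)
    constructor <;> norm_num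
  have h1 : ContDiffOn ℝ 2 (fun r : ℝ => gmap p (pl (r, 0)) 0) (Ioo (1 / 2 : ℝ) (3 / 2)) := by
    have h2 := hC.comp hcurve.contDiffOn hmaps
    exact (EuclideanSpace.proj 0 : E2 →L[ℝ] ℝ).contDiff.comp_contDiffOn h2
  have h2 : (fun r : ℝ => gmap p (pl (r, 0)) 0) = fun r => sig p (r ^ 2) := by
    funext r
    simp [gmap]
  rw [h2] at h1
  have hder : ∀ r ∈ Ioo (1 / 2 : ℝ) (3 / 2), HasDerivAt (fun r => sig p (r ^ 2))
      (kap p (r ^ 2) / r) r := by
    intro r hr
    have hr0 : 0 < r := by linarith [hr.1]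
    have h3 : HasDerivAt (fun r : ℝ => r ^ 2) (2 * r) r := by
      simpa using hasDerivAt_pow 2 r
    have h6 : HasDerivAt (sig p) (kap p (r ^ 2) / (2 * r ^ 2)) (r ^ 2) :=
      sig_hasDerivAt p (by positivity)
    have h4 := HasDerivAt.comp (h := fun r : ℝ => r ^ 2) r h6 h3
    have h5 : kap p (r ^ 2) / (2 * r ^ 2) * (2 * r) = kap p (r ^ 2) / r := by
      field_simp
    rw [h5] at h4
    exact h4
  have h3 : ContDiffOn ℝ 1 (deriv (fun r => sig p (r ^ 2))) (Ioo (1 / 2 : ℝ) (3 / 2)) := by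
    have : ContDiffOn ℝ (1 + 1) (fun r => sig p (r ^ 2)) (Ioo (1 / 2 : ℝ) (3 / 2)) := by
      norm_num; exact h1
    exact ((contDiffOn_succ_iff_deriv_of_isOpen isOpen_Ioo).1 this).2.2
  have hmem : (1:ℝ) ∈ Ioo (1 / 2 : ℝ) (3 / 2) := by constructor <;> norm_num
  have h4 : DifferentiableAt ℝ (deriv (fun r => sig p (r ^ 2))) 1 :=
    (h3.differentiableOn (by simp)).differentiableAt (isOpen_Ioo.mem_nhds hmem)
  have h5 : (fun r => kap p (r ^ 2) / r) =ᶠ[𝓝 1] deriv (fun r => sig p (r ^ 2)) := by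
    filter_upwards [isOpen_Ioo.mem_nhds hmem] with r hr
    exact (hder r hr).deriv.symm
  have h6 : DifferentiableAt ℝ (fun r => kap p (r ^ 2) / r) 1 := h4.congr_of_eventuallyEq h5
  set L := deriv (fun r => kap p (r ^ 2) / r) 1
  have h7 : HasDerivAt (fun r => kap p (r ^ 2) / r) L 1 := h6.hasDerivAt
  set β : ℝ := 1 / (p - 1) with hβ
  have hβpos : 0 < β := by
    apply one_div_pos.2; linarith
  -- from the right
  have hR : HasDerivWithinAt (fun r : ℝ => kap p (r ^ 2) / r) (-1) (Icc 1 2) 1 := by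
    have h8 : HasDerivAt (fun r : ℝ => 1 / r) (-1) 1 := by
      have := hasDerivAt_inv (one_ne_zero (α := ℝ))
      simpa using this
    apply h8.hasDerivWithinAt.congr
    · intro r hr
      rw [kap_of_ge hp (by nlinarith [hr.1])]
    · rw [kap_of_ge hp (by norm_num)]
  -- from the left
  have hL : HasDerivWithinAt (fun r : ℝ => kap p (r ^ 2) / r) (-(2 * β) - 1) (Icc (1 / 2) 1) 1 := by
    have h8 : HasDerivAt (fun r : ℝ => r ^ 2) (2 * 1) 1 := by
      simpa using hasDerivAt_pow 2 (1:ℝ)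
    have h9 := (h8.rpow_const (p := -β) (Or.inl (by norm_num))).div (hasDerivAt_id (1:ℝ))
      (by simp)
    have h10 : (2 * 1 * -β * ((1:ℝ) ^ 2) ^ (-β - 1) * id 1 - ((1:ℝ) ^ 2) ^ (-β) * 1) / id 1 ^ 2 =
        -(2 * β) - 1 := by
      simp
    rw [h10] at h9
    apply h9.hasDerivWithinAt.congr
    · intro r hr
      have hr0 : 0 < r := by linarith [hr.1]
      rw [kap_of_lt hp (by positivity) (by nlinarith [hr.2])]
      rfl
    · rw [kap_of_lt hp (by positivity) (by norm_num)]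
      rfl
  have e1 : L = -1 := (uniqueDiffOn_Icc (by norm_num : (1:ℝ) < 2) 1 (by norm_num)).eq_deriv _
    h7.hasDerivWithinAt hR
  have e2 : L = -(2 * β) - 1 :=
    (uniqueDiffOn_Icc (by norm_num : (1 / 2 : ℝ) < 1) 1 (by norm_num)).eq_deriv _
    h7.hasDerivWithinAt hL
  linarith

/-- For every `p > 1` there are a bounded planar domain `Ω` and an allowed boundary map `g` which is
itself a minimizer in `F_g` but is not of class `C²` on `Ω`. -/
theorem planar_example (p : ℝ) (hp : 1 < p) :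
    ∃ (Ω : Set (E 2)) (g : E 2 → E 2) (Dg : E 2 → Mat 2),
      IsBoundedDomain Ω ∧ IsBoundaryDatum p Ω g Dg ∧
      IsMinimizer p Ω g g Dg ∧ ¬ ContDiffOn ℝ 2 g Ω ∧ ¬ IsSmoothDiffeo g Ω (g '' Ω) := by
  have h1 : (1 / 2 : ℝ) < 3 / 2 := by norm_num
  have h2 : (-1 / 2 : ℝ) < 1 / 2 := by norm_num
  have h3 : (0:ℝ) < 1 / 2 := by norm_num
  refine ⟨Rect (1 / 2) (3 / 2) (-1 / 2) (1 / 2), gmap p, gmat p, ⟨isOpen_Rect _ _ _ _,
    isConnected_Rect h1 h2, isBounded_Rect _ _ _ _⟩,
    ⟨gmap_homeo p h3 h1 h2, gmap_finiteDistortion p h3, gmap_memLp p h3⟩,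
    gmap_minimizer hp h3 h1 h2, gmap_not_C2 hp, ?_⟩
  intro h
  exact gmap_not_C2 hp (by exact_mod_cast contDiffOn_infty.1 h.2.1 2)

/-- **Minimizers of the `L^p` inner distortion need not be smooth.**  The regularity statement of Q1
is false; indeed, already in the plane and for every `p > 1`, there are a bounded domain `Ω` and an
allowed boundary map `g` which is itself a minimizer in its class `F_g`, but which is not even of
class `C²` on `Ω` (in particular it is not a `C^∞` diffeomorphism of `Ω` onto `g(Ω)`). -/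
theorem result :
    (¬ RegularityStatement) ∧
    ∀ p : ℝ, 1 < p →
      ∃ (Ω : Set (E 2)) (g : E 2 → E 2) (Dg : E 2 → Mat 2),
        IsBoundedDomain Ω ∧ IsBoundaryDatum p Ω g Dg ∧
        IsMinimizer p Ω g g Dg ∧ ¬ ContDiffOn ℝ 2 g Ω ∧ ¬ IsSmoothDiffeo g Ω (g '' Ω) := by
  refine ⟨fun H => ?_, planar_example⟩
  obtain ⟨Ω, g, Dg, h1, h2, h3, -, h4⟩ := planar_example 2 (by norm_num)
  exact h4 (H 2 le_rfl Ω h1 2 (by norm_num) g Dg h2 g Dg h3)

end

end Pool.Agent.Results.MP_6ded3d_an.PlanarNonsmoothMinimizer
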